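import Pool.Agent.Q288.VL.Step

set_option autoImplicit false

/-!
# The law of the set of the prime indices
-/

namespace Pool.Agent.Q288.VL

open Finset MeasureTheory Filter Topology

theorem one_sub_sum_le (S : Finset ℕ) (w : ℕ → ℝ) (hw : ∀ k, 0 ≤ w k) :
    1 - ∑ k ∈ S, w k ≤ ∏ k ∈ S, max 0 (1 - w k) := by
  classical
  induction S using Finset.induction_on with
  | empty => simp
  | insert b S hb ih =>
    rw [sum_insert hb, prod_insert hb]
    have hs : 0 ≤ ∑ k ∈ S, w k := sum_nonneg fun k _ => hw k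
    have hp : 0 ≤ ∏ k ∈ S, max 0 (1 - w k) := prod_nonneg fun k _ => le_max_left _ _
    have hb' := hw b
    rcases le_total (1 - w b) 0 with h | h
    · rw [max_eq_left h]
      nlinarith
    · rw [max_eq_right h]
      nlinarith

theorem sum_geo (k₀ d : ℕ) : ∑ k ∈ Ioc k₀ (k₀ + d), (1 / 2 : ℝ) ^ k ≤
    (1 / 2) ^ k₀ - (1 / 2) ^ (k₀ + d) := by
  induction d with
  | zero => simp
  | succ d ih =>
    rw [show k₀ + (d + 1) = (k₀ + d) + 1 by ring, sum_Ioc_succ_top (by omega), pow_succ (1 / 2 : ℝ) (k₀ + d)]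
    linarith

theorem inv_M_le (k : ℕ) : 1 / (M k : ℝ) ≤ (1 / 2) ^ k := by
  rw [one_div_pow]
  refine one_div_le_one_div_of_le (by positivity) ?_
  have : 2 ^ k ≤ M k := Nat.pow_le_pow_right (by norm_num) (Nat.le_add_right _ _)
  exact_mod_cast this

theorem E_tendsto : Tendsto (fun k => (E k : ℝ)) atTop atTop := by
  simp_rw [E_cast]
  exact Pool.Agent.Q288.VC.NN_tendsto

theorem pow_nn (k n : ℕ) (hn : n = 2 ^ 2 ^ k) : ((n : ℝ)) ^ n = E k := by
  subst hn
  unfold E M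
  push_cast
  rw [← pow_mul, pow_add]

/-- the law -/
theorem law : ∃ a A : ℝ, 0 < a ∧ a ≤ A ∧ ∀ (ε : ℝ) (B : ℕ) (s t : ℝ), 0 < ε → ε < 1 → 0 < s →
    s < t → ∃ K : ℕ, ∀ N, K ≤ N → ∀ c : ℕ → ℕ, (∀ k, c k ≤ B) → ∀ I : Finset ℕ,
      (∀ k ∈ I, N ≤ k) →
      (1 - ε) * (t - s) * ∏ k ∈ I, a / M k ≤ volume.real {x : ℝ | s < x ∧ x < t ∧
          ∀ k, N ≤ k → ((⌊x * E k⌋₊ + c k).Prime ↔ k ∈ I)} ∧
      volume.real {x : ℝ | s < x ∧ x < t ∧ ∀ k ∈ I, (⌊x * E k⌋₊ + c k).Prime} ≤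
        (1 + ε) * (t - s) * ∏ k ∈ I, A / M k := by
  classical
  obtain ⟨a, A, ha, ha1, hA, hpb⟩ := prime_bounds
  refine ⟨a, A, ha, ha1.trans hA, fun ε B s t hε hε1 hs hst => ?_⟩
  obtain ⟨K₁, hK₁⟩ := hpb B (s / 2) (t + 1) (by positivity) (by linarith)
  have e1 : ∀ᶠ k : ℕ in atTop, 4 / (ε * (t - s)) ≤ (E k : ℝ) := E_tendsto.eventually_ge_atTop _
  have e2 : ∀ᶠ k : ℕ in atTop, 2 / s ≤ (E k : ℝ) := E_tendsto.eventually_ge_atTop _
  have e3 : ∀ᶠ k : ℕ in atTop, A * (1 / 2) ^ k ≤ ε / 2 := by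
    have : Tendsto (fun k : ℕ => A * (1 / 2 : ℝ) ^ k) atTop (𝓝 (A * 0)) :=
      (tendsto_pow_atTop_nhds_zero_of_lt_one (by norm_num) (by norm_num)).const_mul A
    rw [mul_zero] at this
    exact this.eventually_le_const (by positivity)
  obtain ⟨K₂, hK₂⟩ := eventually_atTop.1 ((e1.and e2).and e3)
  refine ⟨max K₁ K₂ + 1, fun N hN c hc I hI => ?_⟩
  obtain ⟨k₀, rfl⟩ : ∃ k₀, N = k₀ + 1 := ⟨N - 1, by omega⟩
  have hk₁ : K₁ ≤ k₀ := by have := le_max_left K₁ K₂; omega
  have hk₂ : K₂ ≤ k₀ := by have := le_max_right K₁ K₂; omega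
  obtain ⟨⟨f1, f2⟩, f3⟩ := hK₂ k₀ hk₂
  have hE0 : (0 : ℝ) < E k₀ := by exact_mod_cast E_pos k₀
  have hts : 0 < t - s := by linarith
  have ht : 0 < t := by linarith
  rw [div_le_iff₀ (by positivity)] at f1 f2
  have hE1 : (1 : ℝ) ≤ E k₀ := by exact_mod_cast E_pos k₀
  -- general step
  have step : ∀ (T : Finset ℕ), (∀ i ∈ T, ⌊s * E k₀⌋₊ ≤ i ∧ i ≤ ⌊t * E k₀⌋₊) →
      ∀ k, k₀ ≤ k → ∀ j : ℕ, ⌊((j : ℝ) / E k) * E k₀⌋₊ ∈ T →
        s / 2 * E k ≤ j ∧ (j : ℝ) ≤ (t + 1) * E k := by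
    intro T hT k hk j hj
    obtain ⟨h1, h2⟩ := hT _ hj
    have hEk : (0 : ℝ) < E k := by exact_mod_cast E_pos k
    have h3 : s * E k₀ < ⌊s * E k₀⌋₊ + 1 := Nat.lt_floor_add_one _
    have h4 : ((⌊s * E k₀⌋₊ : ℕ) : ℝ) ≤ ((⌊((j : ℝ) / E k) * E k₀⌋₊ : ℕ) : ℝ) := by
      exact_mod_cast h1
    have h5 : ((⌊((j : ℝ) / E k) * E k₀⌋₊ : ℕ) : ℝ) ≤ ((j : ℝ) / E k) * E k₀ :=
      Nat.floor_le (by positivity)
    have h6 : ((j : ℝ) / E k) * E k₀ < ⌊((j : ℝ) / E k) * E k₀⌋₊ + 1 := Nat.lt_floor_add_one _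
    have h7 : ((⌊((j : ℝ) / E k) * E k₀⌋₊ : ℕ) : ℝ) ≤ ((⌊t * E k₀⌋₊ : ℕ) : ℝ) := by
      exact_mod_cast h2
    have h8 : ((⌊t * E k₀⌋₊ : ℕ) : ℝ) ≤ t * E k₀ := Nat.floor_le (by positivity)
    constructor
    · rw [← le_div_iff₀ hEk]
      by_contra hcon
      push Not at hcon
      have : ((j : ℝ) / E k) * E k₀ < s / 2 * E k₀ := mul_lt_mul_of_pos_right hcon hE0
      nlinarith
    · rw [← div_le_iff₀ hEk]
      by_contra hcon
      push Not at hcon
      have : (t + 1) * E k₀ < ((j : ℝ) / E k) * E k₀ := mul_lt_mul_of_pos_right hcon hE0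
      nlinarith
  set P : ℕ → ℕ → Prop := fun k i => ((i + c k).Prime ↔ k ∈ I) with hP
  set Q : ℕ → ℕ → Prop := fun k i => (k ∈ I → (i + c k).Prime) with hQ
  set d₀ : ℕ := I.sup id with hd₀
  have hIsub : ∀ d, d₀ ≤ d → I ⊆ Ioc k₀ (k₀ + d) := by
    intro d hd k hk
    have h1 := hI k hk
    have h2 : k ≤ d₀ := Finset.le_sup (f := id) hk
    rw [mem_Ioc]
    omega
  constructor
  · -- the lower bound
    set T : Finset ℕ := Ico (⌊s * E k₀⌋₊ + 1) ⌊t * E k₀⌋₊ with hT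
    have hTm : ∀ i ∈ T, ⌊s * E k₀⌋₊ ≤ i ∧ i ≤ ⌊t * E k₀⌋₊ := by
      intro i hi
      rw [hT, mem_Ico] at hi
      omega
    set u : ℕ → ℝ := fun k => if k ∈ I then a / M k else max 0 (1 - A / M k) with hu
    set v : ℕ → ℝ := fun k => if k ∈ I then A / M k else 1 with hv
    have hMr : ∀ k, (0 : ℝ) < M k := fun k => by exact_mod_cast M_pos k
    have hA0 : 0 < A := by linarith
    have hu0 : ∀ k, 0 ≤ u k := by
      intro k
      simp only [hu]
      split_ifs
      · exact div_nonneg ha.le (hMr k).le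
      · exact le_max_left _ _
    have hv0 : ∀ k, 0 ≤ v k := by
      intro k
      simp only [hv]
      split_ifs
      · exact div_nonneg hA0.le (hMr k).le
      · exact zero_le_one
    have hcard := card_TT (P := P) (k₀ := k₀) (T := T) hu0 hv0 E_succ R_pos E_pos
      (fun k hk j hj S hS => ?_)
    rotate_left
    · obtain ⟨g1, g2⟩ := step T hTm k hk j hj
      have hSP := hK₁ k (hk₁.trans hk) j g1 g2 (c (k + 1)) (hc _)
        ((Ico (j * R k) ((j + 1) * R k)).filter fun i => (i + c (k + 1)).Prime)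
        (fun i => by rw [mem_filter, mem_Ico])
      by_cases hkI : k + 1 ∈ I
      · have hSeq : S = (Ico (j * R k) ((j + 1) * R k)).filter fun i => (i + c (k + 1)).Prime := by
          ext i
          rw [hS, mem_filter, mem_Ico]
          simp only [hP, hkI, iff_true]
        simp only [hu, hv, if_pos hkI]
        rw [hSeq]
        exact hSP
      · have hSeq : S = (Ico (j * R k) ((j + 1) * R k)).filter fun i => ¬ (i + c (k + 1)).Prime := by
          ext i
          rw [hS, mem_filter, mem_Ico]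
          simp only [hP, hkI, iff_false]
        simp only [hu, hv, if_neg hkI]
        have htot := card_filter_add_card_filter_not (s := Ico (j * R k) ((j + 1) * R k))
          (fun i => (i + c (k + 1)).Prime)
        rw [← hSeq, Nat.card_Ico, show (j + 1) * R k - j * R k = R k by
          rw [show (j + 1) * R k = j * R k + R k by ring]; omega] at htot
        have htot' : ((((Ico (j * R k) ((j + 1) * R k)).filter
            fun i => (i + c (k + 1)).Prime).card : ℕ) : ℝ) + (S.card : ℝ) = R k := by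
          exact_mod_cast htot
        have hc0 : (0 : ℝ) ≤ ((((Ico (j * R k) ((j + 1) * R k)).filter
            fun i => (i + c (k + 1)).Prime).card : ℕ) : ℝ) := Nat.cast_nonneg _
        constructor
        · rcases le_total (1 - A / (M (k + 1) : ℝ)) 0 with h | h
          · rw [max_eq_left h, zero_mul]
            exact Nat.cast_nonneg _
          · rw [max_eq_right h]
            have := hSP.2
            linarith
        · linarith
    -- the sets
    set S : ℕ → Set ℝ := fun d => {x : ℝ | 0 ≤ x ∧ ⌊x * E (k₀ + d)⌋₊ ∈ TT R P k₀ T d} with hS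
    have hSm : ∀ d, volume.real (S d) = ((TT R P k₀ T d).card : ℝ) / E (k₀ + d) :=
      fun d => measure_cells _ (E_pos _) _
    have hSx : ∀ d x, x ∈ S d ↔ 0 ≤ x ∧ ⌊x * E k₀⌋₊ ∈ T ∧
        ∀ k, k₀ < k → k ≤ k₀ + d → P k ⌊x * E k⌋₊ := by
      intro d x
      constructor
      · rintro ⟨h1, h2⟩
        exact ⟨h1, (mem_TT E_succ R_pos h1 d).1 h2⟩
      · rintro ⟨h1, h2⟩
        exact ⟨h1, (mem_TT E_succ R_pos h1 d).2 h2⟩
    have hanti : Antitone S := by
      intro d d' hdd x hx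
      rw [hSx] at hx ⊢
      exact ⟨hx.1, hx.2.1, fun k hk1 hk2 => hx.2.2 k hk1 (by omega)⟩
    have hTs : ∀ x : ℝ, 0 ≤ x → ⌊x * E k₀⌋₊ ∈ T → s < x ∧ x < t := by
      intro x hx hxT
      rw [hT, mem_Ico] at hxT
      constructor
      · have h1 : ((⌊s * E k₀⌋₊ + 1 : ℕ) : ℝ) ≤ x * E k₀ := by
          refine le_trans ?_ (Nat.floor_le (a := x * E k₀) (by positivity))
          exact_mod_cast hxT.1
        have h2 : s * E k₀ < ⌊s * E k₀⌋₊ + 1 := Nat.lt_floor_add_one _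
        push_cast at h1
        exact lt_of_mul_lt_mul_right (h2.trans_le h1) hE0.le
      · have h1 : x * E k₀ < ⌊x * E k₀⌋₊ + 1 := Nat.lt_floor_add_one _
        have h2 : ((⌊x * E k₀⌋₊ : ℕ) : ℝ) + 1 ≤ ((⌊t * E k₀⌋₊ : ℕ) : ℝ) := by
          exact_mod_cast hxT.2
        have h3 : ((⌊t * E k₀⌋₊ : ℕ) : ℝ) ≤ t * E k₀ := Nat.floor_le (by positivity)
        exact lt_of_mul_lt_mul_right (h1.trans_le (h2.trans h3)) hE0.le
    have hSsub : ∀ d, S d ⊆ Set.Ioo s t := fun d x hx => by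
      rw [hSx] at hx
      exact hTs x hx.1 hx.2.1
    have hfin : ∀ X : Set ℝ, X ⊆ Set.Ioo s t → volume X ≠ ⊤ := fun X hX =>
      ne_top_of_le_ne_top (by rw [Real.volume_Ioo]; exact ENNReal.ofReal_ne_top)
        (measure_mono hX)
    have hmeas : ∀ d, MeasurableSet (S d) := by
      intro d
      have h1 : Measurable fun x : ℝ => ⌊x * E (k₀ + d)⌋₊ :=
        Nat.measurable_floor.comp (measurable_id.mul_const _)
      exact (measurableSet_le measurable_const measurable_id).inter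
        (h1 (Finset.measurableSet (TT R P k₀ T d)))
    have hlim : Tendsto (fun d => volume.real (S d)) atTop (𝓝 (volume.real (⋂ d, S d))) := by
      have h1 := tendsto_measure_iInter_atTop (μ := (volume : Measure ℝ)) (s := S)
        (fun d => (hmeas d).nullMeasurableSet) hanti ⟨0, hfin _ (hSsub 0)⟩
      exact (ENNReal.tendsto_toReal (hfin _ ((Set.iInter_subset _ 0).trans (hSsub 0)))).comp h1
    have hlow : ∀ d, d₀ ≤ d → (1 - ε) * (t - s) * ∏ k ∈ I, a / M k ≤ volume.real (S d) := by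
      intro d hd
      rw [hSm]
      refine le_trans ?_ (hcard d).1
      have hTc : (1 - ε / 2) * (t - s) ≤ (T.card : ℝ) / E k₀ := by
        rw [le_div_iff₀ hE0]
        have h1 : (t * E k₀) < ⌊t * E k₀⌋₊ + 1 := Nat.lt_floor_add_one _
        have h2 : ((⌊s * E k₀⌋₊ : ℕ) : ℝ) ≤ s * E k₀ := Nat.floor_le (by positivity)
        have h3 : ((⌊t * E k₀⌋₊ : ℕ) : ℝ) ≤ T.card + (⌊s * E k₀⌋₊ + 1) := by
          have : ⌊t * E k₀⌋₊ ≤ T.card + (⌊s * E k₀⌋₊ + 1) := by
            rw [hT, Nat.card_Ico]; omega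
          exact_mod_cast this
        have h4 : (1 - ε / 2) * (t - s) * E k₀ = t * E k₀ - s * E k₀ - E k₀ * (ε * (t - s)) / 2 := by
          ring
        rw [h4]
        linarith
      have hprod : ∏ k ∈ Ioc k₀ (k₀ + d), u k =
          (∏ k ∈ I, a / M k) * ∏ k ∈ (Ioc k₀ (k₀ + d)).filter (fun k => k ∉ I),
            max 0 (1 - A / M k) := by
        simp only [hu]
        rw [prod_ite]
        congr 1
        have : (Ioc k₀ (k₀ + d)).filter (fun k => k ∈ I) = I := by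
          ext k
          rw [mem_filter]
          exact ⟨fun h => h.2, fun h => ⟨hIsub d hd h, h⟩⟩
        rw [this]
      have hrest : 1 - ε / 2 ≤ ∏ k ∈ (Ioc k₀ (k₀ + d)).filter (fun k => k ∉ I),
          max 0 (1 - A / M k) := by
        refine le_trans ?_ (one_sub_sum_le _ (fun k => A / M k)
          fun k => div_nonneg hA0.le (hMr k).le)
        have h1 : ∑ k ∈ (Ioc k₀ (k₀ + d)).filter (fun k => k ∉ I), A / (M k : ℝ) ≤
            ∑ k ∈ Ioc k₀ (k₀ + d), A / (M k : ℝ) :=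
          sum_le_sum_of_subset_of_nonneg (filter_subset _ _)
            fun k _ _ => div_nonneg hA0.le (hMr k).le
        have h2 : ∑ k ∈ Ioc k₀ (k₀ + d), A / (M k : ℝ) ≤
            ∑ k ∈ Ioc k₀ (k₀ + d), A * (1 / 2 : ℝ) ^ k := by
          refine sum_le_sum fun k _ => ?_
          rw [div_eq_mul_one_div]
          exact mul_le_mul_of_nonneg_left (inv_M_le k) hA0.le
        have h3 : ∑ k ∈ Ioc k₀ (k₀ + d), A * (1 / 2 : ℝ) ^ k ≤ A * (1 / 2) ^ k₀ := by
          rw [← mul_sum]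
          refine mul_le_mul_of_nonneg_left ((sum_geo k₀ d).trans ?_) hA0.le
          have : (0 : ℝ) ≤ (1 / 2) ^ (k₀ + d) := by positivity
          linarith
        linarith
      rw [hprod]
      have hpI : 0 ≤ ∏ k ∈ I, a / (M k : ℝ) := prod_nonneg fun k _ => div_nonneg ha.le (hMr k).le
      have h5 : (1 - ε) * (t - s) ≤ ((T.card : ℝ) / E k₀) *
          ∏ k ∈ (Ioc k₀ (k₀ + d)).filter (fun k => k ∉ I), max 0 (1 - A / M k) := by
        calc (1 - ε) * (t - s) ≤ ((1 - ε / 2) * (t - s)) * (1 - ε / 2) := by nlinarith [sq_nonneg ε]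
          _ ≤ _ := mul_le_mul hTc hrest (by linarith) (div_nonneg (Nat.cast_nonneg _) hE0.le)
      calc (1 - ε) * (t - s) * ∏ k ∈ I, a / (M k : ℝ) ≤ (((T.card : ℝ) / E k₀) *
          ∏ k ∈ (Ioc k₀ (k₀ + d)).filter (fun k => k ∉ I), max 0 (1 - A / M k)) *
            ∏ k ∈ I, a / (M k : ℝ) := mul_le_mul_of_nonneg_right h5 hpI
        _ = _ := by ring
    have hle := ge_of_tendsto hlim (eventually_atTop.2 ⟨d₀, hlow⟩)
    refine hle.trans ?_
    refine measureReal_mono ?_ (hfin _ fun x hx => ⟨hx.1, hx.2.1⟩)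
    intro x hx
    rw [Set.mem_iInter] at hx
    have h0 := (hSx 0 x).1 (hx 0)
    obtain ⟨h1, h2⟩ := hTs x h0.1 h0.2.1
    refine ⟨h1, h2, fun k hk => ?_⟩
    exact ((hSx k x).1 (hx k)).2.2 k (by omega) (by omega)
  · -- the upper bound
    set T : Finset ℕ := Icc ⌊s * E k₀⌋₊ ⌊t * E k₀⌋₊ with hT
    have hTm : ∀ i ∈ T, ⌊s * E k₀⌋₊ ≤ i ∧ i ≤ ⌊t * E k₀⌋₊ := by
      intro i hi
      rwa [hT, mem_Icc] at hi
    set u : ℕ → ℝ := fun _ => 0 with hu
    set v : ℕ → ℝ := fun k => if k ∈ I then A / M k else 1 with hv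
    have hMr : ∀ k, (0 : ℝ) < M k := fun k => by exact_mod_cast M_pos k
    have hA0 : 0 < A := by linarith
    have hv0 : ∀ k, 0 ≤ v k := by
      intro k
      simp only [hv]
      split_ifs
      · exact div_nonneg hA0.le (hMr k).le
      · exact zero_le_one
    have hcard := card_TT (u := u) (P := Q) (k₀ := k₀) (T := T) (fun _ => le_rfl) hv0 E_succ R_pos
      E_pos (fun k hk j hj S hS => ?_)
    rotate_left
    · obtain ⟨g1, g2⟩ := step T hTm k hk j hj
      refine ⟨by simp [hu], ?_⟩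
      by_cases hkI : k + 1 ∈ I
      · have hSP := hK₁ k (hk₁.trans hk) j g1 g2 (c (k + 1)) (hc _) S (fun i => by
          rw [hS]
          simp only [hQ, hkI, forall_const])
        simp only [hv, if_pos hkI]
        exact hSP.2
      · simp only [hv, if_neg hkI, one_mul]
        have : S.card ≤ (Ico (j * R k) ((j + 1) * R k)).card := by
          refine card_le_card fun i hi => ?_
          rw [mem_Ico]
          exact ((hS i).1 hi).1
        rw [Nat.card_Ico, show (j + 1) * R k - j * R k = R k by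
          rw [show (j + 1) * R k = j * R k + R k by ring]; omega] at this
        exact_mod_cast this
    have h1 := (hcard d₀).2
    rw [← measure_cells _ (E_pos _)] at h1
    have hprod : ∏ k ∈ Ioc k₀ (k₀ + d₀), v k = ∏ k ∈ I, A / (M k : ℝ) := by
      simp only [hv]
      rw [prod_ite]
      have : (Ioc k₀ (k₀ + d₀)).filter (fun k => k ∈ I) = I := by
        ext k
        rw [mem_filter]
        exact ⟨fun h => h.2, fun h => ⟨hIsub d₀ le_rfl h, h⟩⟩
      rw [this]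
      simp
    rw [hprod] at h1
    have hTc : (T.card : ℝ) / E k₀ ≤ (1 + ε) * (t - s) := by
      rw [div_le_iff₀ hE0]
      have h1 : ((⌊t * E k₀⌋₊ : ℕ) : ℝ) ≤ t * E k₀ := Nat.floor_le (by positivity)
      have h2 : s * E k₀ < ⌊s * E k₀⌋₊ + 1 := Nat.lt_floor_add_one _
      have hle : ⌊s * E k₀⌋₊ ≤ ⌊t * E k₀⌋₊ :=
        Nat.floor_le_floor (mul_le_mul_of_nonneg_right hst.le hE0.le)
      have h3 : (T.card : ℝ) + ⌊s * E k₀⌋₊ = ⌊t * E k₀⌋₊ + 1 := by
        have : T.card + ⌊s * E k₀⌋₊ = ⌊t * E k₀⌋₊ + 1 := by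
          rw [hT, Nat.card_Icc]; omega
        exact_mod_cast this
      have h4 : (1 + ε) * (t - s) * E k₀ = t * E k₀ - s * E k₀ + E k₀ * (ε * (t - s)) := by ring
      rw [h4]
      linarith
    have hpI : 0 ≤ ∏ k ∈ I, A / (M k : ℝ) := prod_nonneg fun k _ => div_nonneg hA0.le (hMr k).le
    refine le_trans ?_ (h1.trans (mul_le_mul_of_nonneg_right hTc hpI))
    refine measureReal_mono ?_ ?_
    · rintro x ⟨hx1, hx2, hx3⟩
      have hx0 : 0 ≤ x := by linarith
      refine ⟨hx0, (mem_TT E_succ R_pos hx0 d₀).2 ⟨?_, fun k _ _ hk => hx3 k hk⟩⟩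
      rw [hT, mem_Icc]
      exact ⟨Nat.floor_le_floor (mul_le_mul_of_nonneg_right hx1.le hE0.le),
        Nat.floor_le_floor (mul_le_mul_of_nonneg_right hx2.le hE0.le)⟩
    · intro htop
      have hz := measure_cells (E (k₀ + d₀)) (E_pos _) (TT R Q k₀ T d₀)
      rcases Finset.eq_empty_or_nonempty (TT R Q k₀ T d₀) with he | he
      · rw [he] at htop
        simp at htop
      · rw [Measure.real, htop, ENNReal.toReal_top] at hz
        have hE' : (0 : ℝ) < E (k₀ + d₀) := by exact_mod_cast E_pos _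
        have : (0 : ℝ) < (TT R Q k₀ T d₀).card / E (k₀ + d₀) :=
          div_pos (by exact_mod_cast card_pos.2 he) hE'
        linarith

end Pool.Agent.Q288.VL
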