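import Pool.Agent.Q288.VL.Law

set_option autoImplicit false

/-!
# The number of further primes
-/

namespace Pool.Agent.Q288.VL

open Finset MeasureTheory Filter Topology

theorem pow_mul_M_le (N m : ℕ) : 2 ^ m * M N ≤ M (N + m) := by
  induction m with
  | zero => simp
  | succ m ih =>
    have := two_M (N + m)
    rw [pow_succ, show N + (m + 1) = N + m + 1 by ring,
      show 2 ^ m * 2 * M N = 2 * (2 ^ m * M N) by ring]
    omega

theorem M_mono {k l : ℕ} (h : k ≤ l) : M k ≤ M l := by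
  unfold M
  exact Nat.pow_le_pow_right (by norm_num)
    (Nat.add_le_add h (Nat.pow_le_pow_right (by norm_num) h))

theorem many (p : ℕ → ℝ → Prop) (X : Set ℝ) {A C : ℝ} {K : ℕ} (hA : 0 ≤ A) (hC : 0 ≤ C)
    (h : ∀ I : Finset ℕ, (∀ k ∈ I, K ≤ k) →
      volume {x : ℝ | x ∈ X ∧ ∀ k ∈ I, p k x} ≤ ENNReal.ofReal (C * ∏ k ∈ I, A / M k)) :
    ∀ r N : ℕ, K ≤ N → ∀ J : Finset ℕ, (∀ k ∈ J, K ≤ k ∧ k < N) →
      volume {x : ℝ | x ∈ X ∧ (∀ k ∈ J, p k x) ∧ ∃ I : Finset ℕ, I.card = r ∧ (∀ k ∈ I, N ≤ k) ∧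
        ∀ k ∈ I, p k x} ≤
        ENNReal.ofReal (C * (∏ k ∈ J, A / M k) * ∏ i ∈ range r, 2 * A / M (N + i)) := by
  classical
  have hMr : ∀ k, (0 : ℝ) < M k := fun k => by exact_mod_cast M_pos k
  intro r
  induction r with
  | zero =>
    intro N _ J hJ
    rw [range_zero, prod_empty, mul_one]
    refine (measure_mono ?_).trans (h J fun k hk => (hJ k hk).1)
    rintro x ⟨h1, h2, _⟩
    exact ⟨h1, h2⟩
  | succ r ih =>
    intro N hN J hJ
    set D : ℝ := C * (∏ k ∈ J, A / M k) * (A / M N * ∏ i ∈ range r, 2 * A / M (N + 1 + i)) with hD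
    have hJ0 : 0 ≤ ∏ k ∈ J, A / (M k : ℝ) := prod_nonneg fun k _ => div_nonneg hA (hMr k).le
    have hD0 : 0 ≤ D := by
      refine mul_nonneg (mul_nonneg hC hJ0) (mul_nonneg (div_nonneg hA (hMr _).le) ?_)
      exact prod_nonneg fun k _ => div_nonneg (by linarith) (hMr _).le
    have hsub : {x : ℝ | x ∈ X ∧ (∀ k ∈ J, p k x) ∧ ∃ I : Finset ℕ, I.card = r + 1 ∧
        (∀ k ∈ I, N ≤ k) ∧ ∀ k ∈ I, p k x} ⊆
        ⋃ m : ℕ, {x : ℝ | x ∈ X ∧ (∀ k ∈ insert (N + m) J, p k x) ∧ ∃ I : Finset ℕ, I.card = r ∧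
          (∀ k ∈ I, N + m + 1 ≤ k) ∧ ∀ k ∈ I, p k x} := by
      rintro x ⟨h1, h2, I, h3, h4, h5⟩
      have hne : I.Nonempty := card_pos.1 (by omega)
      have hmin := I.min'_mem hne
      have hm : N ≤ I.min' hne := h4 _ hmin
      refine Set.mem_iUnion.2 ⟨I.min' hne - N, h1, ?_, I.erase (I.min' hne), ?_, ?_, ?_⟩
      · intro k hk
        rcases mem_insert.1 hk with hk | hk
        · rw [hk, Nat.add_sub_cancel' hm]
          exact h5 _ hmin
        · exact h2 k hk
      · rw [card_erase_of_mem hmin, h3]; rfl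
      · intro k hk
        have := I.min'_lt_of_mem_erase_min' hne hk
        omega
      · intro k hk
        exact h5 k (mem_of_mem_erase hk)
    refine (measure_mono hsub).trans ((measure_iUnion_le _).trans ?_)
    have hterm : ∀ m : ℕ, volume {x : ℝ | x ∈ X ∧ (∀ k ∈ insert (N + m) J, p k x) ∧
        ∃ I : Finset ℕ, I.card = r ∧ (∀ k ∈ I, N + m + 1 ≤ k) ∧ ∀ k ∈ I, p k x} ≤
        ENNReal.ofReal (D * (1 / 2) ^ m) := by
      intro m
      refine (ih (N + m + 1) (by omega) (insert (N + m) J) (fun k hk => ?_)).trans ?_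
      · rcases mem_insert.1 hk with hk | hk
        · omega
        · have := hJ k hk
          omega
      · refine ENNReal.ofReal_le_ofReal ?_
        have hnot : N + m ∉ J := fun hmem => by
          have := (hJ _ hmem).2
          omega
        rw [prod_insert hnot]
        have e1 : A / (M (N + m) : ℝ) ≤ A / M N * (1 / 2) ^ m := by
          have : (2 : ℝ) ^ m * M N ≤ M (N + m) := by exact_mod_cast pow_mul_M_le N m
          calc A / (M (N + m) : ℝ) ≤ A / (2 ^ m * M N) :=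
                div_le_div_of_nonneg_left hA (mul_pos (by positivity) (hMr _)) this
            _ = _ := by rw [one_div_pow]; field_simp
        have e2 : ∏ i ∈ range r, 2 * A / (M (N + m + 1 + i) : ℝ) ≤
            ∏ i ∈ range r, 2 * A / (M (N + 1 + i) : ℝ) := by
          refine prod_le_prod (fun i _ => div_nonneg (by linarith) (hMr _).le) fun i _ => ?_
          refine div_le_div_of_nonneg_left (by linarith) (hMr _) ?_
          exact_mod_cast M_mono (by omega)
        have e3 : 0 ≤ ∏ i ∈ range r, 2 * A / (M (N + m + 1 + i) : ℝ) :=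
          prod_nonneg fun k _ => div_nonneg (by linarith) (hMr _).le
        calc C * (A / (M (N + m) : ℝ) * ∏ k ∈ J, A / (M k : ℝ)) *
              ∏ i ∈ range r, 2 * A / (M (N + m + 1 + i) : ℝ)
            = (C * ∏ k ∈ J, A / (M k : ℝ)) * (A / (M (N + m) : ℝ) *
              ∏ i ∈ range r, 2 * A / (M (N + m + 1 + i) : ℝ)) := by ring
          _ ≤ (C * ∏ k ∈ J, A / (M k : ℝ)) * ((A / M N * (1 / 2) ^ m) *
              ∏ i ∈ range r, 2 * A / (M (N + 1 + i) : ℝ)) := by
              refine mul_le_mul_of_nonneg_left ?_ (mul_nonneg hC hJ0)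
              refine mul_le_mul e1 e2 e3 ?_
              exact mul_nonneg (div_nonneg hA (hMr _).le) (by positivity)
          _ = D * (1 / 2) ^ m := by rw [hD]; ring
    refine (ENNReal.tsum_le_tsum hterm).trans ?_
    rw [← ENNReal.ofReal_tsum_of_nonneg (fun m => mul_nonneg hD0 (by positivity))
      (summable_geometric_two.mul_left D), tsum_mul_left, tsum_geometric_two]
    refine ENNReal.ofReal_le_ofReal (le_of_eq ?_)
    rw [hD, prod_range_succ']
    have : ∏ i ∈ range r, 2 * A / (M (N + (i + 1)) : ℝ) = ∏ i ∈ range r, 2 * A / (M (N + 1 + i) : ℝ) :=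
      prod_congr rfl fun i _ => by rw [show N + (i + 1) = N + 1 + i by ring]
    rw [this, add_zero]
    ring

/-- both laws -/
theorem laws : ∃ a A : ℝ, 0 < a ∧ a ≤ A ∧ ∀ (ε : ℝ) (B : ℕ) (s t : ℝ), 0 < ε → ε < 1 → 0 < s →
    s < t → ∃ K : ℕ, ∀ N, K ≤ N → ∀ c : ℕ → ℕ, (∀ k, c k ≤ B) →
      (∀ I : Finset ℕ, (∀ k ∈ I, N ≤ k) →
        (1 - ε) * (t - s) * ∏ k ∈ I, a / M k ≤ volume.real {x : ℝ | s < x ∧ x < t ∧
          ∀ k, N ≤ k → ((⌊x * E k⌋₊ + c k).Prime ↔ k ∈ I)} ∧
        volume.real {x : ℝ | s < x ∧ x < t ∧ ∀ k ∈ I, (⌊x * E k⌋₊ + c k).Prime} ≤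
          (1 + ε) * (t - s) * ∏ k ∈ I, A / M k) ∧
      ∀ r : ℕ,
        (1 - ε) * (t - s) * ∏ i ∈ range r, a / M (N + i) ≤ volume.real {x : ℝ | s < x ∧ x < t ∧
          {k : ℕ | N ≤ k ∧ (⌊x * E k⌋₊ + c k).Prime}.encard = r} ∧
        volume.real {x : ℝ | s < x ∧ x < t ∧
          r ≤ {k : ℕ | N ≤ k ∧ (⌊x * E k⌋₊ + c k).Prime}.encard} ≤
          (1 + ε) * (t - s) * ∏ i ∈ range r, A / M (N + i) := by
  classical
  obtain ⟨a, A, ha, haA, h⟩ := law
  have hA : 0 < A := ha.trans_le haA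
  have hMr : ∀ k, (0 : ℝ) < M k := fun k => by exact_mod_cast M_pos k
  refine ⟨a, 2 * A, ha, by linarith, fun ε B s t hε hε1 hs hst => ?_⟩
  obtain ⟨K, hK⟩ := h ε B s t hε hε1 hs hst
  refine ⟨K, fun N hN c hc => ⟨fun I hI => ?_, fun r => ?_⟩⟩
  · obtain ⟨h1, h2⟩ := hK N hN c hc I hI
    refine ⟨h1, h2.trans ?_⟩
    refine mul_le_mul_of_nonneg_left ?_ (mul_nonneg (by linarith) (by linarith))
    refine prod_le_prod (fun i _ => div_nonneg hA.le (hMr _).le) fun i _ => ?_
    exact div_le_div_of_nonneg_right (by linarith) (hMr _).le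
  · have hfin : ∀ Y : Set ℝ, Y ⊆ Set.Ioo s t → volume Y ≠ ⊤ := fun Y hY =>
      ne_top_of_le_ne_top (by rw [Real.volume_Ioo]; exact ENNReal.ofReal_ne_top)
        (measure_mono hY)
    constructor
    · set I : Finset ℕ := (range r).image (fun i => N + i) with hI
      have hcardI : I.card = r := by
        rw [hI, card_image_of_injective _ (fun i j hij => by simpa using hij), card_range]
      have hprod : ∏ k ∈ I, a / (M k : ℝ) = ∏ i ∈ range r, a / (M (N + i) : ℝ) := by
        rw [hI, prod_image (fun i _ j _ hij => by simpa using hij)]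
      have h1 := (hK N hN c hc I (fun k hk => by
        obtain ⟨i, _, rfl⟩ := mem_image.1 hk
        exact Nat.le_add_right _ _)).1
      rw [hprod] at h1
      refine h1.trans (measureReal_mono ?_ (hfin _ fun x hx => ⟨hx.1, hx.2.1⟩))
      rintro x ⟨h2, h3, h4⟩
      refine ⟨h2, h3, ?_⟩
      have : {k : ℕ | N ≤ k ∧ (⌊x * E k⌋₊ + c k).Prime} = (I : Set ℕ) := by
        ext k
        constructor
        · rintro ⟨h5, h6⟩
          exact mem_coe.2 ((h4 k h5).1 h6)
        · intro h5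
          have h6 : N ≤ k := by
            obtain ⟨i, _, rfl⟩ := mem_image.1 (mem_coe.1 h5)
            exact Nat.le_add_right _ _
          exact ⟨h6, (h4 k h6).2 (mem_coe.1 h5)⟩
      rw [this, Set.encard_coe_eq_coe_finsetCard, hcardI]
    · have h1 := many (fun k x => (⌊x * E k⌋₊ + c k).Prime) (Set.Ioo s t) (A := A)
        (C := (1 + ε) * (t - s)) (K := N) hA.le (mul_nonneg (by linarith) (by linarith))
        (fun I hI => ?_) r N le_rfl ∅ (by simp)
      · rw [prod_empty, mul_one] at h1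
        have h2 : volume.real {x : ℝ | s < x ∧ x < t ∧
            r ≤ {k : ℕ | N ≤ k ∧ (⌊x * E k⌋₊ + c k).Prime}.encard} ≤
            volume.real {x : ℝ | x ∈ Set.Ioo s t ∧ (∀ k ∈ (∅ : Finset ℕ), (⌊x * E k⌋₊ + c k).Prime) ∧
              ∃ I : Finset ℕ, I.card = r ∧ (∀ k ∈ I, N ≤ k) ∧
              ∀ k ∈ I, (⌊x * E k⌋₊ + c k).Prime} := by
          refine measureReal_mono ?_ (hfin _ fun x hx => hx.1)
          rintro x ⟨g1, g2, g3⟩
          refine ⟨⟨g1, g2⟩, by simp, ?_⟩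
          obtain ⟨Y, hY1, hY2⟩ := Set.exists_subset_encard_eq g3
          have hYf : Y.Finite := Set.finite_of_encard_eq_coe hY2
          refine ⟨hYf.toFinset, ?_, fun k hk => (hY1 (hYf.mem_toFinset.1 hk)).1,
            fun k hk => (hY1 (hYf.mem_toFinset.1 hk)).2⟩
          have := hYf.encard_eq_coe_toFinset_card
          rw [hY2] at this
          exact_mod_cast this.symm
        refine h2.trans ?_
        refine ENNReal.toReal_le_of_le_ofReal ?_ h1
        exact mul_nonneg (mul_nonneg (by linarith) (by linarith))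
          (prod_nonneg fun k _ => div_nonneg (by linarith) (hMr _).le)
      · have h2 := (hK N hN c hc I hI).2
        have h3 : {x : ℝ | x ∈ Set.Ioo s t ∧ ∀ k ∈ I, (⌊x * E k⌋₊ + c k).Prime} =
            {x : ℝ | s < x ∧ x < t ∧ ∀ k ∈ I, (⌊x * E k⌋₊ + c k).Prime} := by
          ext x
          simp only [Set.mem_Ioo, Set.mem_ofPred_eq, and_assoc]
        rw [h3, ← ENNReal.ofReal_toReal (hfin _ fun x hx => ⟨hx.1, hx.2.1⟩)]
        exact ENNReal.ofReal_le_ofReal h2

end Pool.Agent.Q288.VL
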