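import Pool.Agent.Q288.VL.RStep
import Pool.Agent.Q288.VL.Many

set_option autoImplicit false

/-!
# The law of the set of the prime indices along lacunary sequences, real base
-/

namespace Pool.Agent.Q288.VL

open Finset MeasureTheory Filter Topology

theorem sum_tele {n : ℕ → ℕ} (hn : ∀ k, 2 * n k ≤ n (k + 1)) {k₀ : ℕ} (h0 : 0 < n k₀) (d : ℕ) :
    0 < n (k₀ + d) ∧ ∑ k ∈ Ioc k₀ (k₀ + d), 1 / (n k : ℝ) ≤ 1 / n k₀ - 1 / n (k₀ + d) := by
  induction d with
  | zero => simpa using h0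
  | succ d ih =>
    obtain ⟨ih1, ih2⟩ := ih
    have h1 := hn (k₀ + d)
    have h2 : 0 < n (k₀ + d + 1) := by omega
    refine ⟨h2, ?_⟩
    rw [show k₀ + (d + 1) = (k₀ + d) + 1 by ring, sum_Ioc_succ_top (by omega)]
    have h3 : (2 : ℝ) * n (k₀ + d) ≤ n (k₀ + d + 1) := by exact_mod_cast h1
    have h4 : (0 : ℝ) < n (k₀ + d) := by exact_mod_cast ih1
    have h5 : (0 : ℝ) < n (k₀ + d + 1) := by exact_mod_cast h2
    have h6 : 2 / (n (k₀ + d + 1) : ℝ) ≤ 1 / n (k₀ + d) := by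
      rw [div_le_div_iff₀ h5 h4]
      linarith
    have h7 : 2 / (n (k₀ + d + 1) : ℝ) = 1 / n (k₀ + d + 1) + 1 / n (k₀ + d + 1) := by ring
    linarith

theorem law_real {β : ℝ} (hβ : 1 < β) : ∃ (a A : ℝ) (C : ℕ), 0 < a ∧ a ≤ A ∧ 2 ≤ C ∧
    ∀ (ε : ℝ) (B : ℕ) (s t : ℝ), 0 < ε → ε < 1 → 0 < s → s < t → ∃ K : ℕ, 1 ≤ K ∧
      ∀ n : ℕ → ℕ, (∀ k, C * n k ≤ n (k + 1)) → ∀ k₀, K ≤ n k₀ → ∀ c : ℕ → ℕ, (∀ k, c k ≤ B) →
      ∀ I : Finset ℕ, (∀ k ∈ I, k₀ < k) →
      (1 - ε) * (t - s) * ∏ k ∈ I, a / n k ≤ volume.real {x : ℝ | s < x ∧ x < t ∧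
          ∀ k, k₀ < k → ((⌊x * β ^ n k⌋₊ + c k).Prime ↔ k ∈ I)} ∧
      volume.real {x : ℝ | s < x ∧ x < t ∧ ∀ k ∈ I, (⌊x * β ^ n k⌋₊ + c k).Prime} ≤
        (1 + ε) * (t - s) * ∏ k ∈ I, A / n k := by
  classical
  obtain ⟨a, A, C, ha, ha1, hA, hC2, hpb⟩ := prime_bounds_real hβ
  refine ⟨a, A, C, ha, ha1.trans hA, hC2, fun ε B s t hε hε1 hs hst => ?_⟩
  obtain ⟨K₁, hK₁⟩ := hpb B (s / 2) (t + 1) (by positivity) (by linarith)
  have hA0 : 0 < A := by linarith
  have hts : 0 < t - s := by linarith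
  have ht : 0 < t := by linarith
  have hpow : Tendsto (fun k : ℕ => β ^ k) atTop atTop := tendsto_pow_atTop_atTop_of_one_lt hβ
  have e1 : ∀ᶠ k : ℕ in atTop, 8 / (ε * (t - s)) ≤ β ^ k := hpow.eventually_ge_atTop _
  have e2 : ∀ᶠ k : ℕ in atTop, 4 / s ≤ β ^ k := hpow.eventually_ge_atTop _
  have e3 : ∀ᶠ k : ℕ in atTop, 2 ≤ β ^ k := hpow.eventually_ge_atTop _
  have hinv : Tendsto (fun k : ℕ => 1 / (k : ℝ)) atTop (𝓝 0) := tendsto_one_div_atTop_nhds_zero_nat
  have e4 : ∀ᶠ k : ℕ in atTop, (A + 1) * (1 / (k : ℝ)) ≤ ε / 2 := by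
    have := hinv.const_mul (A + 1)
    rw [mul_zero] at this
    exact this.eventually_le_const (by positivity)
  have e5 : ∀ᶠ k : ℕ in atTop, Real.exp (1 / (k : ℝ)) ≤ 1 + ε / 4 := by
    have := (Real.continuous_exp.tendsto 0).comp hinv
    rw [Real.exp_zero] at this
    exact this.eventually_le_const (by linarith)
  obtain ⟨K₂, hK₂⟩ := eventually_atTop.1 ((((e1.and e2).and e3).and e4).and e5)
  refine ⟨max K₁ K₂ + 1, by omega, fun n hn k₀ hk₀ c hc I hI => ?_⟩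
  have hn2 : ∀ k, 2 * n k ≤ n (k + 1) := fun k => (Nat.mul_le_mul_right _ hC2).trans (hn k)
  have hnmono : ∀ k, k₀ ≤ k → n k₀ ≤ n k := by
    intro k hk
    induction k, hk using Nat.le_induction with
    | base => exact le_rfl
    | succ k hk ih => have := hn2 k; omega
  have hk₁ : ∀ k, k₀ ≤ k → K₁ ≤ n k := fun k hk => by
    have h1 := hnmono k hk
    have := le_max_left K₁ K₂
    omega
  have hk₂ : ∀ k, k₀ ≤ k → K₂ ≤ n k := fun k hk => by
    have h1 := hnmono k hk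
    have := le_max_right K₁ K₂
    omega
  have hnpos : ∀ k, k₀ ≤ k → (0 : ℝ) < n k := fun k hk => by
    have h1 := hnmono k hk
    exact_mod_cast (by omega : 0 < n k)
  obtain ⟨⟨⟨⟨f1, f2⟩, f3⟩, f4⟩, f5⟩ := hK₂ (n k₀) (hk₂ k₀ le_rfl)
  set E : ℕ → ℝ := fun k => β ^ n k with hE
  have hβ0 : 0 < β := by linarith
  have hEpos : ∀ k, 0 < E k := fun k => by simp only [hE]; positivity
  have hE0 := hEpos k₀
  change 8 / (ε * (t - s)) ≤ E k₀ at f1
  change 4 / s ≤ E k₀ at f2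
  change 2 ≤ E k₀ at f3
  rw [div_le_iff₀ (by positivity)] at f1 f2
  have hR2 : ∀ k, k₀ ≤ k → 2 ≤ E (k + 1) / E k := by
    intro k hk
    have h1 : E (k + 1) / E k = β ^ (n (k + 1) - n k) := by
      rw [div_eq_iff (hEpos k).ne']
      simp only [hE]
      rw [← pow_add]
      congr 1
      have := hn2 k
      omega
    rw [h1]
    have h2 := (hK₂ (n (k + 1) - n k) (by have := hn2 k; have := hk₂ k hk; omega)).1.1.2
    exact h2
  have hsum : ∀ d, ∑ k ∈ Ioc k₀ (k₀ + d), 1 / (n k : ℝ) ≤ 1 / n k₀ := by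
    intro d
    have h1 := sum_tele hn2 (k₀ := k₀) (by exact_mod_cast hnpos k₀ le_rfl) d
    have h2 : (0 : ℝ) ≤ 1 / n (k₀ + d) := by positivity
    linarith [h1.2]
  -- general step
  have step : ∀ (T : Finset ℕ), (∀ i ∈ T, ⌊s * E k₀⌋₊ ≤ i ∧ i ≤ ⌊t * E k₀⌋₊) →
      ∀ k, k₀ ≤ k → ∀ j : ℕ, ⌊((j : ℝ) / E k) * E k₀⌋₊ ∈ T →
        s / 2 * E k ≤ j ∧ (j : ℝ) ≤ (t + 1) * E k := by
    intro T hT k hk j hj
    obtain ⟨h1, h2⟩ := hT _ hj
    have hEk : (0 : ℝ) < E k := hEpos k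
    have h3 : s * E k₀ < ⌊s * E k₀⌋₊ + 1 := Nat.lt_floor_add_one _
    have h4 : ((⌊s * E k₀⌋₊ : ℕ) : ℝ) ≤ ((⌊((j : ℝ) / E k) * E k₀⌋₊ : ℕ) : ℝ) := by
      exact_mod_cast h1
    have h5 : ((⌊((j : ℝ) / E k) * E k₀⌋₊ : ℕ) : ℝ) ≤ ((j : ℝ) / E k) * E k₀ :=
      Nat.floor_le (by positivity)
    have h6 : ((j : ℝ) / E k) * E k₀ < ⌊((j : ℝ) / E k) * E k₀⌋₊ + 1 := Nat.lt_floor_add_one _
    have h7 : ((⌊((j : ℝ) / E k) * E k₀⌋₊ : ℕ) : ℝ) ≤ ((⌊t * E k₀⌋₊ : ℕ) : ℝ) := by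
      exact_mod_cast h2
    have h8 : ((⌊t * E k₀⌋₊ : ℕ) : ℝ) ≤ t * E k₀ := Nat.floor_le (by positivity)
    constructor
    · rw [← le_div_iff₀ hEk]
      by_contra hcon
      push Not at hcon
      have : ((j : ℝ) / E k) * E k₀ < s / 2 * E k₀ := mul_lt_mul_of_pos_right hcon hE0
      nlinarith
    · rw [← div_le_iff₀ hEk]
      by_contra hcon
      push Not at hcon
      have : (t + 1) * E k₀ < ((j : ℝ) / E k) * E k₀ := mul_lt_mul_of_pos_right hcon hE0
      nlinarith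
  set P : ℕ → ℕ → Prop := fun k i => ((i + c k).Prime ↔ k ∈ I) with hP
  set Q : ℕ → ℕ → Prop := fun k i => (k ∈ I → (i + c k).Prime) with hQ
  set d₀ : ℕ := I.sup id with hd₀
  have hIsub : ∀ d, d₀ ≤ d → I ⊆ Ioc k₀ (k₀ + d) := by
    intro d hd k hk
    have h1 := hI k hk
    have h2 : k ≤ d₀ := Finset.le_sup (f := id) hk
    rw [mem_Ioc]
    omega
  have hIpos : ∀ k ∈ I, (0 : ℝ) < n k := fun k hk => hnpos k (hI k hk).le
  have hfilt : ∀ d, d₀ ≤ d → (Ioc k₀ (k₀ + d)).filter (fun k => k ∈ I) = I := by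
    intro d hd
    ext k
    rw [mem_filter]
    exact ⟨fun h => h.2, fun h => ⟨hIsub d hd h, h⟩⟩
  constructor
  · -- the lower bound
    set T : Finset ℕ := Ico (⌊s * E k₀⌋₊ + 1) ⌊t * E k₀⌋₊ with hT
    have hTm : ∀ i ∈ T, ⌊s * E k₀⌋₊ ≤ i ∧ i ≤ ⌊t * E k₀⌋₊ := by
      intro i hi
      rw [hT, mem_Ico] at hi
      omega
    set u : ℕ → ℝ := fun k => if k ∈ I then a / n k else max 0 (1 - (A + 1) / n k) with hu
    have hu0 : ∀ k, 0 ≤ u k := by
      intro k
      simp only [hu]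
      split_ifs
      · exact div_nonneg ha.le (Nat.cast_nonneg _)
      · exact le_max_left _ _
    have hcard := card_TI (P := P) (k₀ := k₀) (T := T) hu0 hEpos
      (fun k hk j hj S hS => ?_)
    rotate_left
    · obtain ⟨g1, g2⟩ := step T hTm k hk j hj
      obtain ⟨q1, q2, q3, q4⟩ := hK₁ (n k) (n (k + 1)) (hk₁ k hk) (hn k) j g1 g2 (c (k + 1)) (hc _)
      have hRpos : 0 < E (k + 1) / E k := div_pos (hEpos _) (hEpos _)
      by_cases hkI : k + 1 ∈ I
      · simp only [hu, if_pos hkI]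
        exact q1 S fun i => by
          rw [hS]
          simp only [hP, hkI, iff_true]
          exact Iff.rfl
      · simp only [hu, if_neg hkI]
        set W := Ico ⌈(j : ℝ) * (E (k + 1) / E k)⌉₊ ⌊((j : ℝ) + 1) * (E (k + 1) / E k)⌋₊ with hW
        have hSeq : S = W.filter fun i => ¬ (i + c (k + 1)).Prime := by
          ext i
          rw [hS, mem_filter, hW, mem_Ico]
          simp only [hP, hkI, iff_false]
        have htot := card_filter_add_card_filter_not (s := W) (fun i => (i + c (k + 1)).Prime)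
        rw [← hSeq] at htot
        have htot' : ((W.filter fun i => (i + c (k + 1)).Prime).card : ℝ) + (S.card : ℝ) =
            (W.card : ℝ) := by exact_mod_cast htot
        have hle : ((W.filter fun i => (i + c (k + 1)).Prime).card : ℝ) ≤
            A / n (k + 1) * (E (k + 1) / E k) := by
          set V := (Icc ⌊(j : ℝ) * (E (k + 1) / E k)⌋₊
            ⌊((j : ℝ) + 1) * (E (k + 1) / E k)⌋₊).filter fun i => (i + c (k + 1)).Prime with hV
          have h1 : (W.filter fun i => (i + c (k + 1)).Prime).card ≤ V.card := by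
            refine card_le_card fun i hi => ?_
            rw [mem_filter, hW, mem_Ico] at hi
            rw [hV, mem_filter, mem_Icc]
            exact ⟨⟨(Nat.floor_le_ceil _).trans hi.1.1, hi.1.2.le⟩, hi.2⟩
          have h2 := q2 V fun i => by rw [hV, mem_filter, mem_Icc]
          have h3 : ((W.filter fun i => (i + c (k + 1)).Prime).card : ℝ) ≤ V.card := by
            exact_mod_cast h1
          exact h3.trans h2
        rcases le_total (1 - (A + 1) / (n (k + 1) : ℝ)) 0 with h | h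
        · rw [max_eq_left h, zero_mul]
          exact Nat.cast_nonneg _
        · rw [max_eq_right h]
          have h5 : (1 - (A + 1) / (n (k + 1) : ℝ)) * (E (k + 1) / E k) =
              (1 - 1 / (n (k + 1) : ℝ)) * (E (k + 1) / E k) -
                A / n (k + 1) * (E (k + 1) / E k) := by ring
          rw [h5]
          have h6 : (1 - 1 / (n (k + 1) : ℝ)) * (E (k + 1) / E k) ≤ (W.card : ℝ) := q3
          linarith
    -- the sets
    set S : ℕ → Set ℝ := fun d => {x : ℝ | 0 ≤ x ∧ ⌊x * E (k₀ + d)⌋₊ ∈ TI E P k₀ T d} with hS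
    have hSm : ∀ d, volume.real (S d) = ((TI E P k₀ T d).card : ℝ) / E (k₀ + d) :=
      fun d => measure_cells_real _ (hEpos _) _
    have hanti : Antitone S := by
      refine antitone_nat_of_succ_le fun d x hx => ?_
      exact ⟨hx.1, TI_anti hEpos hx.1 d hx.2⟩
    have hTs : ∀ x : ℝ, 0 ≤ x → ⌊x * E k₀⌋₊ ∈ T → s < x ∧ x < t := by
      intro x hx hxT
      rw [hT, mem_Ico] at hxT
      constructor
      · have h1 : ((⌊s * E k₀⌋₊ + 1 : ℕ) : ℝ) ≤ x * E k₀ := by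
          refine le_trans ?_ (Nat.floor_le (a := x * E k₀) (by positivity))
          exact_mod_cast hxT.1
        have h2 : s * E k₀ < ⌊s * E k₀⌋₊ + 1 := Nat.lt_floor_add_one _
        push_cast at h1
        exact lt_of_mul_lt_mul_right (h2.trans_le h1) hE0.le
      · have h1 : x * E k₀ < ⌊x * E k₀⌋₊ + 1 := Nat.lt_floor_add_one _
        have h2 : ((⌊x * E k₀⌋₊ : ℕ) : ℝ) + 1 ≤ ((⌊t * E k₀⌋₊ : ℕ) : ℝ) := by
          exact_mod_cast hxT.2
        have h3 : ((⌊t * E k₀⌋₊ : ℕ) : ℝ) ≤ t * E k₀ := Nat.floor_le (by positivity)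
        exact lt_of_mul_lt_mul_right (h1.trans_le (h2.trans h3)) hE0.le
    have hS0 : S 0 ⊆ Set.Ioo s t := fun x hx => hTs x hx.1 hx.2
    have hfin : ∀ X : Set ℝ, X ⊆ Set.Ioo s t → volume X ≠ ⊤ := fun X hX =>
      ne_top_of_le_ne_top (by rw [Real.volume_Ioo]; exact ENNReal.ofReal_ne_top)
        (measure_mono hX)
    have hmeas : ∀ d, MeasurableSet (S d) := by
      intro d
      have h1 : Measurable fun x : ℝ => ⌊x * E (k₀ + d)⌋₊ :=
        Nat.measurable_floor.comp (measurable_id.mul_const _)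
      exact (measurableSet_le measurable_const measurable_id).inter
        (h1 (Finset.measurableSet (TI E P k₀ T d)))
    have hlim : Tendsto (fun d => volume.real (S d)) atTop (𝓝 (volume.real (⋂ d, S d))) := by
      have h1 := tendsto_measure_iInter_atTop (μ := (volume : Measure ℝ)) (s := S)
        (fun d => (hmeas d).nullMeasurableSet) hanti ⟨0, hfin _ hS0⟩
      exact (ENNReal.tendsto_toReal (hfin _ ((Set.iInter_subset _ 0).trans hS0))).comp h1
    have hlow : ∀ d, d₀ ≤ d → (1 - ε) * (t - s) * ∏ k ∈ I, a / (n k : ℝ) ≤ volume.real (S d) := by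
      intro d hd
      rw [hSm]
      refine le_trans ?_ (hcard d)
      have hTc : (1 - ε / 2) * (t - s) ≤ (T.card : ℝ) / E k₀ := by
        rw [le_div_iff₀ hE0]
        have h1 : (t * E k₀) < ⌊t * E k₀⌋₊ + 1 := Nat.lt_floor_add_one _
        have h2 : ((⌊s * E k₀⌋₊ : ℕ) : ℝ) ≤ s * E k₀ := Nat.floor_le (by positivity)
        have h3 : ((⌊t * E k₀⌋₊ : ℕ) : ℝ) ≤ T.card + (⌊s * E k₀⌋₊ + 1) := by
          have : ⌊t * E k₀⌋₊ ≤ T.card + (⌊s * E k₀⌋₊ + 1) := by
            rw [hT, Nat.card_Ico]; omega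
          exact_mod_cast this
        have h4 : (1 - ε / 2) * (t - s) * E k₀ = t * E k₀ - s * E k₀ - E k₀ * (ε * (t - s)) / 2 := by
          ring
        rw [h4]
        linarith
      have hprod : ∏ k ∈ Ioc k₀ (k₀ + d), u k =
          (∏ k ∈ I, a / (n k : ℝ)) * ∏ k ∈ (Ioc k₀ (k₀ + d)).filter (fun k => k ∉ I),
            max 0 (1 - (A + 1) / (n k : ℝ)) := by
        simp only [hu]
        rw [prod_ite, hfilt d hd]
      have hrest : 1 - ε / 2 ≤ ∏ k ∈ (Ioc k₀ (k₀ + d)).filter (fun k => k ∉ I),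
          max 0 (1 - (A + 1) / (n k : ℝ)) := by
        refine le_trans ?_ (one_sub_sum_le _ (fun k => (A + 1) / n k)
          fun k => div_nonneg (by linarith) (Nat.cast_nonneg _))
        have h1 : ∑ k ∈ (Ioc k₀ (k₀ + d)).filter (fun k => k ∉ I), (A + 1) / (n k : ℝ) ≤
            ∑ k ∈ Ioc k₀ (k₀ + d), (A + 1) / (n k : ℝ) :=
          sum_le_sum_of_subset_of_nonneg (filter_subset _ _)
            fun k _ _ => div_nonneg (by linarith) (Nat.cast_nonneg _)
        have h2 : ∑ k ∈ Ioc k₀ (k₀ + d), (A + 1) / (n k : ℝ) =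
            (A + 1) * ∑ k ∈ Ioc k₀ (k₀ + d), 1 / (n k : ℝ) := by
          rw [mul_sum]
          exact sum_congr rfl fun k _ => by ring
        have h3 := mul_le_mul_of_nonneg_left (hsum d) (by linarith : (0 : ℝ) ≤ A + 1)
        linarith
      rw [hprod]
      have hpI : 0 ≤ ∏ k ∈ I, a / (n k : ℝ) :=
        prod_nonneg fun k _ => div_nonneg ha.le (Nat.cast_nonneg _)
      have h5 : (1 - ε) * (t - s) ≤ ((T.card : ℝ) / E k₀) *
          ∏ k ∈ (Ioc k₀ (k₀ + d)).filter (fun k => k ∉ I), max 0 (1 - (A + 1) / (n k : ℝ)) := by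
        calc (1 - ε) * (t - s) ≤ ((1 - ε / 2) * (t - s)) * (1 - ε / 2) := by nlinarith [sq_nonneg ε]
          _ ≤ _ := mul_le_mul hTc hrest (by linarith) (div_nonneg (Nat.cast_nonneg _) hE0.le)
      calc (1 - ε) * (t - s) * ∏ k ∈ I, a / (n k : ℝ) ≤ (((T.card : ℝ) / E k₀) *
          ∏ k ∈ (Ioc k₀ (k₀ + d)).filter (fun k => k ∉ I), max 0 (1 - (A + 1) / (n k : ℝ))) *
            ∏ k ∈ I, a / (n k : ℝ) := mul_le_mul_of_nonneg_right h5 hpI
        _ = _ := by ring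
    have hle := ge_of_tendsto hlim (eventually_atTop.2 ⟨d₀, hlow⟩)
    refine hle.trans ?_
    refine measureReal_mono ?_ (hfin _ fun x hx => ⟨hx.1, hx.2.1⟩)
    intro x hx
    rw [Set.mem_iInter] at hx
    obtain ⟨h1, h2⟩ := hTs x (hx 0).1 (hx 0).2
    refine ⟨h1, h2, fun k hk => ?_⟩
    exact (mem_TI hEpos (hx k).1 k (hx k).2).2 k hk (by omega)
  · -- the upper bound
    set T : Finset ℕ := Icc ⌊s * E k₀⌋₊ ⌊t * E k₀⌋₊ with hT
    set v : ℕ → ℝ := fun k => if k ∈ I then A / n k else 1 + 1 / n k with hv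
    have hv0 : ∀ k, 0 ≤ v k := by
      intro k
      simp only [hv]
      split_ifs
      · exact div_nonneg hA0.le (Nat.cast_nonneg _)
      · positivity
    -- the range of the outer cells
    have hinv' : ∀ d, ∀ j ∈ TO E Q k₀ T d, s / 2 * E (k₀ + d) + 1 ≤ (j : ℝ) ∧
        (j : ℝ) + 2 ≤ (t + 1) * E (k₀ + d) := by
      intro d
      induction d with
      | zero =>
        intro j hj
        simp only [TO, hT, mem_Icc] at hj
        have h3 : s * E k₀ < ⌊s * E k₀⌋₊ + 1 := Nat.lt_floor_add_one _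
        have h4 : ((⌊s * E k₀⌋₊ : ℕ) : ℝ) ≤ j := by exact_mod_cast hj.1
        have h7 : (j : ℝ) ≤ ((⌊t * E k₀⌋₊ : ℕ) : ℝ) := by exact_mod_cast hj.2
        have h8 : ((⌊t * E k₀⌋₊ : ℕ) : ℝ) ≤ t * E k₀ := Nat.floor_le (by positivity)
        rw [add_zero]
        constructor <;> nlinarith
      | succ d ih =>
        intro j hj
        simp only [TO, mem_biUnion, mem_filter, mem_Icc] at hj
        obtain ⟨i, hi, ⟨h1, h2⟩, _⟩ := hj
        obtain ⟨ih1, ih2⟩ := ih i hi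
        have hR := hR2 (k₀ + d) (Nat.le_add_right _ _)
        set R := E (k₀ + d + 1) / E (k₀ + d) with hRdef
        have hER : E (k₀ + (d + 1)) = E (k₀ + d) * R := by
          rw [hRdef, show k₀ + (d + 1) = k₀ + d + 1 by ring]
          have := hEpos (k₀ + d)
          field_simp
        have h3 : (i : ℝ) * R < (⌊(i : ℝ) * R⌋₊ : ℝ) + 1 := Nat.lt_floor_add_one _
        have h4 : (⌊(i : ℝ) * R⌋₊ : ℝ) ≤ j := by exact_mod_cast h1
        have h5 : (j : ℝ) ≤ (⌊((i : ℝ) + 1) * R⌋₊ : ℝ) := by exact_mod_cast h2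
        have h6 : (⌊((i : ℝ) + 1) * R⌋₊ : ℝ) ≤ ((i : ℝ) + 1) * R := Nat.floor_le (by positivity)
        have hEd := hEpos (k₀ + d)
        rw [hER]
        constructor
        · have h7 := mul_le_mul_of_nonneg_right ih1 (by linarith : (0 : ℝ) ≤ R)
          nlinarith
        · have h7 := mul_le_mul_of_nonneg_right ih2 (by linarith : (0 : ℝ) ≤ R)
          nlinarith
    have hcard := card_TO (P := Q) (k₀ := k₀) (T := T) hv0 hEpos (fun d j hj S hS => ?_)
    rotate_left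
    · obtain ⟨g1, g2⟩ := hinv' d j hj
      have hk : k₀ ≤ k₀ + d := Nat.le_add_right _ _
      obtain ⟨q1, q2, q3, q4⟩ := hK₁ (n (k₀ + d)) (n (k₀ + d + 1)) (hk₁ _ hk) (hn _) j
        (by linarith [g1] : s / 2 * β ^ n (k₀ + d) ≤ j) (by linarith [g2]) (c (k₀ + d + 1)) (hc _)
      by_cases hkI : k₀ + d + 1 ∈ I
      · simp only [hv, if_pos hkI]
        exact q2 S fun i => by
          rw [hS]
          simp only [hQ, hkI, forall_const]
          exact Iff.rfl
      · simp only [hv, if_neg hkI]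
        refine le_trans ?_ q4
        have : S.card ≤ (Icc ⌊(j : ℝ) * (E (k₀ + d + 1) / E (k₀ + d))⌋₊
            ⌊((j : ℝ) + 1) * (E (k₀ + d + 1) / E (k₀ + d))⌋₊).card := by
          refine card_le_card fun i hi => ?_
          rw [mem_Icc]
          exact ((hS i).1 hi).1
        exact_mod_cast this
    have h1 := hcard d₀
    rw [← measure_cells_real _ (hEpos _)] at h1
    have hprod : ∏ k ∈ Ioc k₀ (k₀ + d₀), v k ≤ (∏ k ∈ I, A / (n k : ℝ)) * (1 + ε / 4) := by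
      have h2 : ∏ k ∈ Ioc k₀ (k₀ + d₀), v k = (∏ k ∈ I, A / (n k : ℝ)) *
          ∏ k ∈ (Ioc k₀ (k₀ + d₀)).filter (fun k => k ∉ I), (1 + 1 / (n k : ℝ)) := by
        simp only [hv]
        rw [prod_ite, hfilt d₀ le_rfl]
      rw [h2]
      refine mul_le_mul_of_nonneg_left ?_
        (prod_nonneg fun k _ => div_nonneg hA0.le (Nat.cast_nonneg _))
      calc ∏ k ∈ (Ioc k₀ (k₀ + d₀)).filter (fun k => k ∉ I), (1 + 1 / (n k : ℝ))
          ≤ ∏ k ∈ (Ioc k₀ (k₀ + d₀)).filter (fun k => k ∉ I), Real.exp (1 / (n k : ℝ)) := by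
            refine prod_le_prod (fun k _ => by positivity) fun k _ => ?_
            have := Real.add_one_le_exp (1 / (n k : ℝ))
            linarith
        _ = Real.exp (∑ k ∈ (Ioc k₀ (k₀ + d₀)).filter (fun k => k ∉ I), 1 / (n k : ℝ)) :=
            (Real.exp_sum _ _).symm
        _ ≤ Real.exp (1 / (n k₀ : ℝ)) := by
            refine Real.exp_le_exp.2 (le_trans ?_ (hsum d₀))
            exact sum_le_sum_of_subset_of_nonneg (filter_subset _ _)
              fun k _ _ => by positivity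
        _ ≤ 1 + ε / 4 := f5
    have hTc : (T.card : ℝ) / E k₀ ≤ (1 + ε / 4) * (t - s) := by
      rw [div_le_iff₀ hE0]
      have h1 : ((⌊t * E k₀⌋₊ : ℕ) : ℝ) ≤ t * E k₀ := Nat.floor_le (by positivity)
      have h2 : s * E k₀ < ⌊s * E k₀⌋₊ + 1 := Nat.lt_floor_add_one _
      have hle : ⌊s * E k₀⌋₊ ≤ ⌊t * E k₀⌋₊ :=
        Nat.floor_le_floor (mul_le_mul_of_nonneg_right hst.le hE0.le)
      have h3 : (T.card : ℝ) + ⌊s * E k₀⌋₊ = ⌊t * E k₀⌋₊ + 1 := by
        have : T.card + ⌊s * E k₀⌋₊ = ⌊t * E k₀⌋₊ + 1 := by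
          rw [hT, Nat.card_Icc]; omega
        exact_mod_cast this
      have h4 : (1 + ε / 4) * (t - s) * E k₀ = t * E k₀ - s * E k₀ + E k₀ * (ε * (t - s)) / 4 := by
        ring
      rw [h4]
      linarith
    have hpI : 0 ≤ ∏ k ∈ I, A / (n k : ℝ) :=
      prod_nonneg fun k _ => div_nonneg hA0.le (Nat.cast_nonneg _)
    have h9 : (T.card : ℝ) / E k₀ * ∏ k ∈ Ioc k₀ (k₀ + d₀), v k ≤
        (1 + ε) * (t - s) * ∏ k ∈ I, A / (n k : ℝ) := by
      calc (T.card : ℝ) / E k₀ * ∏ k ∈ Ioc k₀ (k₀ + d₀), v k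
          ≤ ((1 + ε / 4) * (t - s)) * ((∏ k ∈ I, A / (n k : ℝ)) * (1 + ε / 4)) := by
            refine mul_le_mul hTc hprod (prod_nonneg fun k _ => hv0 k) ?_
            exact mul_nonneg (by linarith) hts.le
        _ = ((1 + ε / 4) * (1 + ε / 4)) * ((t - s) * ∏ k ∈ I, A / (n k : ℝ)) := by ring
        _ ≤ (1 + ε) * ((t - s) * ∏ k ∈ I, A / (n k : ℝ)) := by
            refine mul_le_mul_of_nonneg_right ?_ (mul_nonneg hts.le hpI)
            nlinarith
        _ = _ := by ring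
    refine le_trans ?_ (h1.trans h9)
    refine measureReal_mono ?_ ?_
    · rintro x ⟨hx1, hx2, hx3⟩
      have hx0 : 0 ≤ x := by linarith
      refine ⟨hx0, mem_TO hEpos hx0 ?_ d₀ fun k _ _ hk => hx3 k hk⟩
      rw [hT, mem_Icc]
      exact ⟨Nat.floor_le_floor (mul_le_mul_of_nonneg_right hx1.le hE0.le),
        Nat.floor_le_floor (mul_le_mul_of_nonneg_right hx2.le hE0.le)⟩
    · intro htop
      have hz := measure_cells_real (E (k₀ + d₀)) (hEpos _) (TO E Q k₀ T d₀)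
      rcases Finset.eq_empty_or_nonempty (TO E Q k₀ T d₀) with he | he
      · rw [he] at htop
        simp at htop
      · rw [Measure.real, htop, ENNReal.toReal_top] at hz
        have : (0 : ℝ) < (TO E Q k₀ T d₀).card / E (k₀ + d₀) :=
          div_pos (by exact_mod_cast card_pos.2 he) (hEpos _)
        linarith

end Pool.Agent.Q288.VL
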