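import Pool.Agent.Q288.VL.RLaw

set_option autoImplicit false

/-!
# The number of further primes, real base
-/

namespace Pool.Agent.Q288.VL

open Finset MeasureTheory Filter Topology

theorem pow_mul_n_le {n : ℕ → ℕ} (hn : ∀ k, 2 * n k ≤ n (k + 1)) (N m : ℕ) :
    2 ^ m * n N ≤ n (N + m) := by
  induction m with
  | zero => simp
  | succ m ih =>
    have := hn (N + m)
    rw [pow_succ, show N + (m + 1) = N + m + 1 by ring,
      show 2 ^ m * 2 * n N = 2 * (2 ^ m * n N) by ring]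
    omega

theorem n_mono {n : ℕ → ℕ} (hn : ∀ k, 2 * n k ≤ n (k + 1)) {k l : ℕ} (h : k ≤ l) : n k ≤ n l :=
  monotone_nat_of_le_succ (fun k => by have := hn k; omega) h

theorem many_real {n : ℕ → ℕ} (hn : ∀ k, 2 * n k ≤ n (k + 1)) (p : ℕ → ℝ → Prop) (X : Set ℝ)
    {A C : ℝ} {K : ℕ} (hpos : 0 < n K) (hA : 0 ≤ A) (hC : 0 ≤ C)
    (h : ∀ I : Finset ℕ, (∀ k ∈ I, K ≤ k) →
      volume {x : ℝ | x ∈ X ∧ ∀ k ∈ I, p k x} ≤ ENNReal.ofReal (C * ∏ k ∈ I, A / n k)) :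
    ∀ r N : ℕ, K ≤ N → ∀ J : Finset ℕ, (∀ k ∈ J, K ≤ k ∧ k < N) →
      volume {x : ℝ | x ∈ X ∧ (∀ k ∈ J, p k x) ∧ ∃ I : Finset ℕ, I.card = r ∧ (∀ k ∈ I, N ≤ k) ∧
        ∀ k ∈ I, p k x} ≤
        ENNReal.ofReal (C * (∏ k ∈ J, A / n k) * ∏ i ∈ range r, 2 * A / n (N + i)) := by
  classical
  have hMr : ∀ k, K ≤ k → (0 : ℝ) < n k := fun k hk => by
    have := n_mono hn hk
    exact_mod_cast (by omega : 0 < n k)
  have hM0 : ∀ k, (0 : ℝ) ≤ n k := fun k => Nat.cast_nonneg _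
  intro r
  induction r with
  | zero =>
    intro N _ J hJ
    rw [range_zero, prod_empty, mul_one]
    refine (measure_mono ?_).trans (h J fun k hk => (hJ k hk).1)
    rintro x ⟨h1, h2, _⟩
    exact ⟨h1, h2⟩
  | succ r ih =>
    intro N hN J hJ
    set D : ℝ := C * (∏ k ∈ J, A / n k) * (A / n N * ∏ i ∈ range r, 2 * A / n (N + 1 + i)) with hD
    have hJ0 : 0 ≤ ∏ k ∈ J, A / (n k : ℝ) := prod_nonneg fun k _ => div_nonneg hA (hM0 k)
    have hD0 : 0 ≤ D := by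
      refine mul_nonneg (mul_nonneg hC hJ0) (mul_nonneg (div_nonneg hA (hM0 _)) ?_)
      exact prod_nonneg fun k _ => div_nonneg (by linarith) (hM0 _)
    have hsub : {x : ℝ | x ∈ X ∧ (∀ k ∈ J, p k x) ∧ ∃ I : Finset ℕ, I.card = r + 1 ∧
        (∀ k ∈ I, N ≤ k) ∧ ∀ k ∈ I, p k x} ⊆
        ⋃ m : ℕ, {x : ℝ | x ∈ X ∧ (∀ k ∈ insert (N + m) J, p k x) ∧ ∃ I : Finset ℕ, I.card = r ∧
          (∀ k ∈ I, N + m + 1 ≤ k) ∧ ∀ k ∈ I, p k x} := by
      rintro x ⟨h1, h2, I, h3, h4, h5⟩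
      have hne : I.Nonempty := card_pos.1 (by omega)
      have hmin := I.min'_mem hne
      have hm : N ≤ I.min' hne := h4 _ hmin
      refine Set.mem_iUnion.2 ⟨I.min' hne - N, h1, ?_, I.erase (I.min' hne), ?_, ?_, ?_⟩
      · intro k hk
        rcases mem_insert.1 hk with hk | hk
        · rw [hk, Nat.add_sub_cancel' hm]
          exact h5 _ hmin
        · exact h2 k hk
      · rw [card_erase_of_mem hmin, h3]; rfl
      · intro k hk
        have := I.min'_lt_of_mem_erase_min' hne hk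
        omega
      · intro k hk
        exact h5 k (mem_of_mem_erase hk)
    refine (measure_mono hsub).trans ((measure_iUnion_le _).trans ?_)
    have hterm : ∀ m : ℕ, volume {x : ℝ | x ∈ X ∧ (∀ k ∈ insert (N + m) J, p k x) ∧
        ∃ I : Finset ℕ, I.card = r ∧ (∀ k ∈ I, N + m + 1 ≤ k) ∧ ∀ k ∈ I, p k x} ≤
        ENNReal.ofReal (D * (1 / 2) ^ m) := by
      intro m
      refine (ih (N + m + 1) (by omega) (insert (N + m) J) (fun k hk => ?_)).trans ?_
      · rcases mem_insert.1 hk with hk | hk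
        · omega
        · have := hJ k hk
          omega
      · refine ENNReal.ofReal_le_ofReal ?_
        have hnot : N + m ∉ J := fun hmem => by
          have := (hJ _ hmem).2
          omega
        rw [prod_insert hnot]
        have hNp := hMr N hN
        have e1 : A / (n (N + m) : ℝ) ≤ A / n N * (1 / 2) ^ m := by
          have : (2 : ℝ) ^ m * n N ≤ n (N + m) := by exact_mod_cast pow_mul_n_le hn N m
          calc A / (n (N + m) : ℝ) ≤ A / (2 ^ m * n N) :=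
                div_le_div_of_nonneg_left hA (mul_pos (by positivity) hNp) this
            _ = _ := by rw [one_div_pow]; field_simp
        have e2 : ∏ i ∈ range r, 2 * A / (n (N + m + 1 + i) : ℝ) ≤
            ∏ i ∈ range r, 2 * A / (n (N + 1 + i) : ℝ) := by
          refine prod_le_prod (fun i _ => div_nonneg (by linarith) (hM0 _)) fun i _ => ?_
          refine div_le_div_of_nonneg_left (by linarith) (hMr _ (by omega)) ?_
          exact_mod_cast n_mono hn (by omega)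
        have e3 : 0 ≤ ∏ i ∈ range r, 2 * A / (n (N + m + 1 + i) : ℝ) :=
          prod_nonneg fun k _ => div_nonneg (by linarith) (hM0 _)
        calc C * (A / (n (N + m) : ℝ) * ∏ k ∈ J, A / (n k : ℝ)) *
              ∏ i ∈ range r, 2 * A / (n (N + m + 1 + i) : ℝ)
            = (C * ∏ k ∈ J, A / (n k : ℝ)) * (A / (n (N + m) : ℝ) *
              ∏ i ∈ range r, 2 * A / (n (N + m + 1 + i) : ℝ)) := by ring
          _ ≤ (C * ∏ k ∈ J, A / (n k : ℝ)) * ((A / n N * (1 / 2) ^ m) *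
              ∏ i ∈ range r, 2 * A / (n (N + 1 + i) : ℝ)) := by
              refine mul_le_mul_of_nonneg_left ?_ (mul_nonneg hC hJ0)
              refine mul_le_mul e1 e2 e3 ?_
              exact mul_nonneg (div_nonneg hA (hM0 _)) (by positivity)
          _ = D * (1 / 2) ^ m := by rw [hD]; ring
    refine (ENNReal.tsum_le_tsum hterm).trans ?_
    rw [← ENNReal.ofReal_tsum_of_nonneg (fun m => mul_nonneg hD0 (by positivity))
      (summable_geometric_two.mul_left D), tsum_mul_left, tsum_geometric_two]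
    refine ENNReal.ofReal_le_ofReal (le_of_eq ?_)
    rw [hD, prod_range_succ']
    have : ∏ i ∈ range r, 2 * A / (n (N + (i + 1)) : ℝ) = ∏ i ∈ range r, 2 * A / (n (N + 1 + i) : ℝ) :=
      prod_congr rfl fun i _ => by rw [show N + (i + 1) = N + 1 + i by ring]
    rw [this, add_zero]
    ring

/-- both laws -/
theorem laws_real {β : ℝ} (hβ : 1 < β) : ∃ (a A : ℝ) (C : ℕ), 0 < a ∧ a ≤ A ∧
    ∀ (ε : ℝ) (B : ℕ) (s t : ℝ), 0 < ε → ε < 1 → 0 < s → s < t → ∃ K : ℕ,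
      ∀ n : ℕ → ℕ, (∀ k, C * n k ≤ n (k + 1)) → ∀ k₀, K ≤ n k₀ → ∀ c : ℕ → ℕ, (∀ k, c k ≤ B) →
      (∀ I : Finset ℕ, (∀ k ∈ I, k₀ < k) →
        (1 - ε) * (t - s) * ∏ k ∈ I, a / n k ≤ volume.real {x : ℝ | x ∈ Set.Ioo s t ∧
          {k : ℕ | k₀ < k ∧ (⌊x * β ^ n k⌋₊ + c k).Prime} = I} ∧
        volume.real {x : ℝ | x ∈ Set.Ioo s t ∧
          (I : Set ℕ) ⊆ {k : ℕ | k₀ < k ∧ (⌊x * β ^ n k⌋₊ + c k).Prime}} ≤
          (1 + ε) * (t - s) * ∏ k ∈ I, A / n k) ∧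
      ∀ r : ℕ,
        (1 - ε) * (t - s) * ∏ k ∈ Ioc k₀ (k₀ + r), a / n k ≤ volume.real {x : ℝ | x ∈ Set.Ioo s t ∧
          {k : ℕ | k₀ < k ∧ (⌊x * β ^ n k⌋₊ + c k).Prime}.encard = r} ∧
        volume.real {x : ℝ | x ∈ Set.Ioo s t ∧
          r ≤ {k : ℕ | k₀ < k ∧ (⌊x * β ^ n k⌋₊ + c k).Prime}.encard} ≤
          (1 + ε) * (t - s) * ∏ k ∈ Ioc k₀ (k₀ + r), A / n k := by
  classical
  obtain ⟨a, A, C, ha, haA, hC2, h⟩ := law_real hβ
  have hA : 0 < A := ha.trans_le haA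
  refine ⟨a, 2 * A, C, ha, by linarith, fun ε B s t hε hε1 hs hst => ?_⟩
  obtain ⟨K, hK1, hK⟩ := h ε B s t hε hε1 hs hst
  refine ⟨K, fun n hn k₀ hk₀ c hc => ?_⟩
  have hn2 : ∀ k, 2 * n k ≤ n (k + 1) := fun k => (Nat.mul_le_mul_right _ hC2).trans (hn k)
  have hfin : ∀ Y : Set ℝ, Y ⊆ Set.Ioo s t → volume Y ≠ ⊤ := fun Y hY =>
    ne_top_of_le_ne_top (by rw [Real.volume_Ioo]; exact ENNReal.ofReal_ne_top)
      (measure_mono hY)
  -- the first law
  have first : ∀ I : Finset ℕ, (∀ k ∈ I, k₀ < k) →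
      (1 - ε) * (t - s) * ∏ k ∈ I, a / (n k : ℝ) ≤ volume.real {x : ℝ | x ∈ Set.Ioo s t ∧
        {k : ℕ | k₀ < k ∧ (⌊x * β ^ n k⌋₊ + c k).Prime} = I} := by
    intro I hI
    refine (hK n hn k₀ hk₀ c hc I hI).1.trans (measureReal_mono ?_ (hfin _ fun x hx => hx.1))
    rintro x ⟨h1, h2, h3⟩
    refine ⟨⟨h1, h2⟩, ?_⟩
    ext k
    constructor
    · rintro ⟨g1, g2⟩
      exact mem_coe.2 ((h3 k g1).1 g2)
    · intro g
      have g1 := hI k (mem_coe.1 g)
      exact ⟨g1, (h3 k g1).2 (mem_coe.1 g)⟩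
  have hIle : ∀ I : Finset ℕ, ∏ k ∈ I, A / (n k : ℝ) ≤ ∏ k ∈ I, 2 * A / (n k : ℝ) := fun I =>
    prod_le_prod (fun i _ => div_nonneg hA.le (Nat.cast_nonneg _)) fun i _ =>
      div_le_div_of_nonneg_right (by linarith) (Nat.cast_nonneg _)
  refine ⟨fun I hI => ⟨first I hI, ?_⟩, fun r => ⟨?_, ?_⟩⟩
  · refine le_trans (measureReal_mono ?_ (hfin _ fun x hx => ⟨hx.1, hx.2.1⟩))
      ((hK n hn k₀ hk₀ c hc I hI).2.trans
        (mul_le_mul_of_nonneg_left (hIle I) (mul_nonneg (by linarith) (by linarith))))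
    rintro x ⟨⟨h1, h2⟩, h3⟩
    exact ⟨h1, h2, fun k hk => (h3 (mem_coe.2 hk)).2⟩
  · have h1 := first (Ioc k₀ (k₀ + r)) fun k hk => (mem_Ioc.1 hk).1
    refine h1.trans (measureReal_mono ?_ (hfin _ fun x hx => hx.1))
    rintro x ⟨h2, h3⟩
    refine ⟨h2, ?_⟩
    rw [h3, Set.encard_coe_eq_coe_finsetCard, Nat.card_Ioc]
    simp
  · have hpos : 0 < n (k₀ + 1) := by
      have := hn2 k₀
      omega
    have h1 := many_real hn2 (fun k x => (⌊x * β ^ n k⌋₊ + c k).Prime) (Set.Ioo s t) (A := A)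
      (C := (1 + ε) * (t - s)) (K := k₀ + 1) hpos hA.le (mul_nonneg (by linarith) (by linarith))
      (fun I hI => ?_) r (k₀ + 1) le_rfl ∅ (by simp)
    · rw [prod_empty, mul_one] at h1
      have hprod : ∏ k ∈ Ioc k₀ (k₀ + r), 2 * A / (n k : ℝ) =
          ∏ i ∈ range r, 2 * A / (n (k₀ + 1 + i) : ℝ) := by
        have : Ioc k₀ (k₀ + r) = Ico (k₀ + 1) (k₀ + 1 + r) := by
          ext k
          rw [mem_Ioc, mem_Ico]
          omega
        rw [this, prod_Ico_eq_prod_range, Nat.add_sub_cancel_left]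
      have h2 : volume.real {x : ℝ | x ∈ Set.Ioo s t ∧
          r ≤ {k : ℕ | k₀ < k ∧ (⌊x * β ^ n k⌋₊ + c k).Prime}.encard} ≤
          volume.real {x : ℝ | x ∈ Set.Ioo s t ∧
            (∀ k ∈ (∅ : Finset ℕ), (⌊x * β ^ n k⌋₊ + c k).Prime) ∧
            ∃ I : Finset ℕ, I.card = r ∧ (∀ k ∈ I, k₀ + 1 ≤ k) ∧
            ∀ k ∈ I, (⌊x * β ^ n k⌋₊ + c k).Prime} := by
        refine measureReal_mono ?_ (hfin _ fun x hx => hx.1)
        rintro x ⟨g1, g3⟩
        refine ⟨g1, by simp, ?_⟩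
        obtain ⟨Y, hY1, hY2⟩ := Set.exists_subset_encard_eq g3
        have hYf : Y.Finite := Set.finite_of_encard_eq_coe hY2
        refine ⟨hYf.toFinset, ?_, fun k hk => (hY1 (hYf.mem_toFinset.1 hk)).1,
          fun k hk => (hY1 (hYf.mem_toFinset.1 hk)).2⟩
        have := hYf.encard_eq_coe_toFinset_card
        rw [hY2] at this
        exact_mod_cast this.symm
      refine h2.trans ?_
      rw [hprod]
      refine ENNReal.toReal_le_of_le_ofReal ?_ h1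
      exact mul_nonneg (mul_nonneg (by linarith) (by linarith))
        (prod_nonneg fun k _ => div_nonneg (by linarith) (Nat.cast_nonneg _))
    · have h2 := (hK n hn k₀ hk₀ c hc I fun k hk => by have := hI k hk; omega).2
      have h3 : {x : ℝ | x ∈ Set.Ioo s t ∧ ∀ k ∈ I, (⌊x * β ^ n k⌋₊ + c k).Prime} =
          {x : ℝ | s < x ∧ x < t ∧ ∀ k ∈ I, (⌊x * β ^ n k⌋₊ + c k).Prime} := by
        ext x
        simp only [Set.mem_Ioo, Set.mem_ofPred_eq, and_assoc]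
      rw [h3, ← ENNReal.ofReal_toReal (hfin _ fun x hx => ⟨hx.1, hx.2.1⟩)]
      exact ENNReal.ofReal_le_ofReal h2

end Pool.Agent.Q288.VL
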