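import Pool.Agent.Q288.VL.RTree
import Pool.Agent.Q288.VC.Gen
import Pool.Agent.H692R2.USS.T1

set_option autoImplicit false

/-!
# The number of primes in the cells, real base
-/

namespace Pool.Agent.Q288.VL

open Finset MeasureTheory Filter

theorem prime_bounds_real {β : ℝ} (hβ : 1 < β) : ∃ (a A : ℝ) (C : ℕ), 0 < a ∧ a ≤ 1 ∧ 1 ≤ A ∧
    2 ≤ C ∧ ∀ (B : ℕ) (s t : ℝ), 0 < s → s < t → ∃ K : ℕ, ∀ m m' : ℕ, K ≤ m → C * m ≤ m' →
      ∀ j : ℕ, s * β ^ m ≤ j → (j : ℝ) ≤ t * β ^ m → ∀ c ≤ B,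
      (∀ S : Finset ℕ, (∀ i, i ∈ S ↔ (⌈(j : ℝ) * (β ^ m' / β ^ m)⌉₊ ≤ i ∧
        i < ⌊((j : ℝ) + 1) * (β ^ m' / β ^ m)⌋₊) ∧ (i + c).Prime) →
        a / m' * (β ^ m' / β ^ m) ≤ S.card) ∧
      (∀ S : Finset ℕ, (∀ i, i ∈ S ↔ (⌊(j : ℝ) * (β ^ m' / β ^ m)⌋₊ ≤ i ∧
        i ≤ ⌊((j : ℝ) + 1) * (β ^ m' / β ^ m)⌋₊) ∧ (i + c).Prime) →
        (S.card : ℝ) ≤ A / m' * (β ^ m' / β ^ m)) ∧
      ((1 - 1 / m') * (β ^ m' / β ^ m) ≤ ((Ico ⌈(j : ℝ) * (β ^ m' / β ^ m)⌉₊
        ⌊((j : ℝ) + 1) * (β ^ m' / β ^ m)⌋₊).card : ℝ)) ∧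
      (((Icc ⌊(j : ℝ) * (β ^ m' / β ^ m)⌋₊
        ⌊((j : ℝ) + 1) * (β ^ m' / β ^ m)⌋₊).card : ℝ) ≤ (1 + 1 / m') * (β ^ m' / β ^ m)) := by
  obtain ⟨δ, η, hδ, hδ1, hη, X₀, hX₀, hH⟩ := Pool.Agent.H295R3.D.hoheisel
  have hlog : 0 < Real.log β := Real.log_pos hβ
  have hβ0 : 0 < β := by linarith
  obtain ⟨C, hC⟩ := exists_nat_ge (2 / δ + 2)
  have hC2 : 2 ≤ C := by
    have : (2 : ℝ) ≤ C := by
      have : 0 < 2 / δ := by positivity
      linarith
    exact_mod_cast this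
  have hCδ : 2 ≤ δ * C := by
    have h1 : 2 / δ ≤ C := by linarith
    rw [div_le_iff₀ hδ] at h1
    linarith
  refine ⟨min (η / (4 * Real.log β)) 1, max (88 / Real.log β) 1, C, by positivity,
    min_le_right _ _, le_max_right _ _, hC2, fun B s t hs hst => ?_⟩
  have ht : 0 < t := by linarith
  have hpow : Tendsto (fun k : ℕ => β ^ k) atTop atTop := tendsto_pow_atTop_atTop_of_one_lt hβ
  have h2 : ∀ᶠ k : ℕ in atTop, 2 * (t + B + 1) ≤ β ^ k := hpow.eventually_ge_atTop _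
  have h3 : ∀ᶠ k : ℕ in atTop, ((X₀ : ℝ) + 2) ≤ s * β ^ k :=
    (hpow.const_mul_atTop hs).eventually_ge_atTop _
  have h4 : ∀ᶠ k : ℕ in atTop, 4 * (k : ℝ) + 4 ≤ β ^ k := by
    have h5 : Tendsto (fun k : ℕ => (k : ℝ) ^ 1 / β ^ k) atTop (nhds 0) :=
      tendsto_pow_const_div_const_pow_of_one_lt 1 hβ
    have h6 : ∀ᶠ k : ℕ in atTop, (k : ℝ) ^ 1 / β ^ k ≤ 1 / 8 :=
      h5.eventually_le_const (by norm_num)
    filter_upwards [h6, hpow.eventually_ge_atTop 8] with k h7 h8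
    rw [div_le_iff₀ (by positivity), pow_one] at h7
    linarith
  obtain ⟨K, hK⟩ := eventually_atTop.1 ((h2.and h3).and h4)
  refine ⟨K + 1, fun m m' hm hmm j hj1 hj2 c hc => ?_⟩
  obtain ⟨⟨g2, g3⟩, _⟩ := hK m (by omega)
  have hm1 : 1 ≤ m := by omega
  have hmm2 : 2 * m ≤ m' := (Nat.mul_le_mul_right m hC2).trans hmm
  have hR : β ^ m' / β ^ m = β ^ (m' - m) := by
    rw [div_eq_iff (by positivity), ← pow_add]
    congr 1
    omega
  set R : ℝ := β ^ m' / β ^ m with hRdef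
  have g4 : 4 * ((m' - m : ℕ) : ℝ) + 4 ≤ R := by
    rw [hR]
    exact (hK (m' - m) (by omega)).2
  have hm'0 : (0 : ℝ) < m' := by exact_mod_cast (by omega : 0 < m')
  have hl : (m' : ℝ) ≤ 2 * ((m' - m : ℕ) : ℝ) := by
    have : m' ≤ 2 * (m' - m) := by omega
    exact_mod_cast this
  have hR4 : 4 ≤ R := by
    have : (0 : ℝ) ≤ ((m' - m : ℕ) : ℝ) := Nat.cast_nonneg _
    linarith
  have h2R : 2 * (m' : ℝ) ≤ R := by linarith
  have hR0 : 0 < R := by linarith
  have hE0 : 0 < β ^ m := by positivity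
  have hE0' : 0 < β ^ m' := by positivity
  have hER : β ^ m' = β ^ m * R := by rw [hRdef]; field_simp
  have hjX : ((X₀ : ℝ) + 2) ≤ j := g3.trans hj1
  have hj0 : (0 : ℝ) ≤ j := Nat.cast_nonneg _
  have hX0' : (0 : ℝ) ≤ X₀ := Nat.cast_nonneg _
  have f1 : ((j : ℝ) + 1) * R < (⌊((j : ℝ) + 1) * R⌋₊ : ℝ) + 1 := Nat.lt_floor_add_one _
  have f2 : (⌊((j : ℝ) + 1) * R⌋₊ : ℝ) ≤ ((j : ℝ) + 1) * R := Nat.floor_le (by positivity)
  have f3 : (⌈(j : ℝ) * R⌉₊ : ℝ) < (j : ℝ) * R + 1 := Nat.ceil_lt_add_one (by positivity)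
  have f4 : (j : ℝ) * R ≤ (⌈(j : ℝ) * R⌉₊ : ℝ) := Nat.le_ceil _
  have f5 : (j : ℝ) * R < (⌊(j : ℝ) * R⌋₊ : ℝ) + 1 := Nat.lt_floor_add_one _
  have f6 : (⌊(j : ℝ) * R⌋₊ : ℝ) ≤ (j : ℝ) * R := Nat.floor_le (by positivity)
  have hjR : ((j : ℝ) + 1) * R = j * R + R := by ring
  have h2div : 2 ≤ 1 / (m' : ℝ) * R := by
    rw [one_div, inv_mul_eq_div, le_div_iff₀ hm'0]
    exact h2R
  -- order of the endpoints
  have o1 : ⌈(j : ℝ) * R⌉₊ ≤ ⌊((j : ℝ) + 1) * R⌋₊ := by
    have : (⌈(j : ℝ) * R⌉₊ : ℝ) ≤ (⌊((j : ℝ) + 1) * R⌋₊ : ℝ) := by linarith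
    exact_mod_cast this
  have o2 : ⌊(j : ℝ) * R⌋₊ ≤ ⌊((j : ℝ) + 1) * R⌋₊ := by
    have : (⌊(j : ℝ) * R⌋₊ : ℝ) ≤ (⌊((j : ℝ) + 1) * R⌋₊ : ℝ) := by linarith
    exact_mod_cast this
  refine ⟨fun S hS => ?_, fun S hS => ?_, ?_, ?_⟩
  · -- the lower bound
    set u : ℕ := ⌈(j : ℝ) * R⌉₊ with hu
    set v : ℕ := ⌊((j : ℝ) + 1) * R⌋₊ with hv
    have hjR2 : 2 * R ≤ j * R := mul_le_mul_of_nonneg_right (by linarith) hR0.le
    have hu1 : 1 ≤ u := by
      have : (1 : ℝ) ≤ u := by linarith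
      exact_mod_cast this
    set X : ℕ := u + c - 1 with hX
    set Y : ℕ := v - u with hY
    have hXr : (X : ℝ) = u + c - 1 := by
      rw [hX, Nat.cast_sub (by omega)]; push_cast; ring
    have hYr : (Y : ℝ) = v - u := by rw [hY, Nat.cast_sub o1]
    have hc0 : (0 : ℝ) ≤ c := Nat.cast_nonneg _
    have hcB : (c : ℝ) ≤ B := by exact_mod_cast hc
    have hYge : R / 2 ≤ Y := by rw [hYr]; linarith
    have hYle : Y ≤ X := by
      have : (Y : ℝ) ≤ X := by rw [hYr, hXr]; linarith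
      exact_mod_cast this
    have hXX : X₀ ≤ X := by
      have h5 : (j : ℝ) ≤ j * R := le_mul_of_one_le_right hj0 (by linarith)
      have : (X₀ : ℝ) ≤ X := by rw [hXr]; linarith
      exact_mod_cast this
    have hXpos : (1 : ℝ) < X := by
      have : 2 ≤ X := hX₀.trans hXX
      exact_mod_cast this
    have hG1 : 1 ≤ t + B + 1 := by
      have : (0 : ℝ) ≤ B := Nat.cast_nonneg _
      linarith
    have hE1' : 1 ≤ β ^ m' := one_le_pow₀ hβ.le
    have hXle : (X : ℝ) ≤ (t + B + 1) * β ^ m' := by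
      have e1 : (j : ℝ) * R ≤ t * β ^ m * R := mul_le_mul_of_nonneg_right hj2 hR0.le
      have e2 : (B : ℝ) ≤ B * β ^ m' := le_mul_of_one_le_right (Nat.cast_nonneg _) hE1'
      have e3 : t * β ^ m * R = t * β ^ m' := by rw [hER]; ring
      rw [hXr]
      nlinarith
    have hE2 : (β ^ m) ^ 2 ≤ (β ^ m') ^ δ := by
      have h5 : (2 : ℝ) * m ≤ δ * m' := by
        have h6 : (C : ℝ) * m ≤ m' := by exact_mod_cast hmm
        have h7 : (0 : ℝ) ≤ m := Nat.cast_nonneg _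
        calc (2 : ℝ) * m ≤ (δ * C) * m := mul_le_mul_of_nonneg_right hCδ h7
          _ = δ * (C * m) := by ring
          _ ≤ δ * m' := mul_le_mul_of_nonneg_left h6 hδ.le
      have e1 : (β ^ m) ^ 2 = β ^ ((2 : ℝ) * m) := by
        rw [← pow_mul, ← Real.rpow_natCast]
        congr 1
        push_cast
        ring
      have e2 : (β ^ m') ^ δ = β ^ (δ * m') := by
        rw [← Real.rpow_natCast, ← Real.rpow_mul hβ0.le]
        congr 1
        ring
      rw [e1, e2]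
      exact Real.rpow_le_rpow_of_exponent_le hβ.le h5
    have hpowX : (X : ℝ) ^ (1 - δ) ≤ Y := by
      refine le_trans ?_ hYge
      calc (X : ℝ) ^ (1 - δ) ≤ ((t + B + 1) * β ^ m') ^ (1 - δ) :=
            Real.rpow_le_rpow (by linarith) hXle (by linarith)
        _ = (t + B + 1) ^ (1 - δ) * (β ^ m') ^ (1 - δ) :=
            Real.mul_rpow (by linarith) hE0'.le
        _ ≤ (β ^ m / 2) * (β ^ m' / (β ^ m) ^ 2) := by
            refine mul_le_mul ?_ ?_ (by positivity) (by positivity)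
            · calc (t + B + 1) ^ (1 - δ) ≤ (t + B + 1) ^ (1 : ℝ) :=
                    Real.rpow_le_rpow_of_exponent_le hG1 (by linarith)
                _ = t + B + 1 := Real.rpow_one _
                _ ≤ _ := by linarith
            · rw [Real.rpow_sub hE0', Real.rpow_one]
              exact div_le_div_of_nonneg_left hE0'.le (by positivity) hE2
        _ = R / 2 := by rw [hER]; field_simp
    have hcount := hH X Y hXX hpowX hYle
    have hinj : ((Ioc X (X + Y)).filter Nat.Prime).card ≤ S.card := by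
      refine card_le_card_of_injOn (fun p => p - c) ?_ ?_
      · intro p hp
        have hp' := mem_filter.1 (mem_coe.1 hp)
        rw [mem_Ioc] at hp'
        obtain ⟨⟨q1, q2⟩, q3⟩ := hp'
        refine mem_coe.2 ((hS _).2 ⟨⟨by show u ≤ p - c; omega,
          by show p - c < v; omega⟩, ?_⟩)
        show ((p - c) + c).Prime
        rwa [Nat.sub_add_cancel (by omega)]
      · intro p hp q hq hpq
        have hp' := mem_filter.1 (mem_coe.1 hp)
        have hq' := mem_filter.1 (mem_coe.1 hq)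
        rw [mem_Ioc] at hp' hq'
        have : p - c = q - c := hpq
        omega
    have hinj' : (((Ioc X (X + Y)).filter Nat.Prime).card : ℝ) ≤ S.card := by exact_mod_cast hinj
    refine le_trans ?_ (hcount.trans hinj')
    have hlogX : Real.log X ≤ 2 * m' * Real.log β := by
      have hmle : (m : ℝ) ≤ m' := by exact_mod_cast (by omega : m ≤ m')
      calc Real.log X ≤ Real.log (β ^ m * β ^ m') := by
            refine Real.log_le_log (by linarith) (hXle.trans ?_)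
            exact mul_le_mul_of_nonneg_right (by linarith) hE0'.le
        _ = (m + m') * Real.log β := by
            rw [Real.log_mul hE0.ne' hE0'.ne', Real.log_pow, Real.log_pow]; ring
        _ ≤ _ := mul_le_mul_of_nonneg_right (by linarith) hlog.le
    calc min (η / (4 * Real.log β)) 1 / m' * R ≤ (η / (4 * Real.log β)) / m' * R := by
          gcongr
          exact min_le_left _ _
      _ = η * (R / 2) / (2 * m' * Real.log β) := by field_simp; norm_num
      _ ≤ η * Y / (2 * m' * Real.log β) := by gcongr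
      _ ≤ η * Y / Real.log X := by
          refine div_le_div_of_nonneg_left (by positivity) (Real.log_pos hXpos) hlogX
  · -- the upper bound
    set u : ℕ := ⌊(j : ℝ) * R⌋₊ with hu
    set v : ℕ := ⌊((j : ℝ) + 1) * R⌋₊ with hv
    set N : ℕ := v - u + 1 with hN
    have hNr : (N : ℝ) = v - u + 1 := by rw [hN]; push_cast [Nat.cast_sub o2]; ring
    have hN2 : N ≤ N := le_rfl
    have hNge : R ≤ N := by rw [hNr]; linarith
    have hNle : (N : ℝ) ≤ 2 * R := by rw [hNr]; linarith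
    have hN2 : 2 ≤ N := by
      have : (2 : ℝ) ≤ N := by linarith
      exact_mod_cast this
    have hbt := Pool.Agent.H692R2.USS.t1_brun_titchmarsh (u + c) 1 N hN2 le_rfl
    have hinj : S.card ≤ ((range N).filter (fun l => (u + c + l * 1).Prime)).card := by
      refine card_le_card_of_injOn (fun i => i - u) ?_ ?_
      · intro i hi
        obtain ⟨⟨q1, q2⟩, q3⟩ := (hS i).1 (mem_coe.1 hi)
        refine mem_coe.2 (mem_filter.2 ⟨mem_range.2 (by show i - u < N; omega), ?_⟩)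
        show (u + c + (i - u) * 1).Prime
        rwa [show u + c + (i - u) * 1 = i + c by omega]
      · intro p hp q hq hpq
        have hp' := (hS p).1 (mem_coe.1 hp)
        have hq' := (hS q).1 (mem_coe.1 hq)
        have : p - u = q - u := hpq
        omega
    have hinj' : (S.card : ℝ) ≤
        (((range N).filter (fun l => (u + c + l * 1).Prime)).card : ℝ) := by
      exact_mod_cast hinj
    refine (hinj'.trans hbt).trans ?_
    rw [Nat.totient_one]
    have hlogN : (m' : ℝ) / 2 * Real.log β ≤ Real.log N := by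
      calc (m' : ℝ) / 2 * Real.log β ≤ ((m' - m : ℕ) : ℝ) * Real.log β :=
            mul_le_mul_of_nonneg_right (by linarith) hlog.le
        _ = Real.log R := by rw [hR, Real.log_pow]
        _ ≤ Real.log N := Real.log_le_log hR0 hNge
    calc 22 * (((1 : ℕ) : ℝ) / ((1 : ℕ) : ℝ)) * (N : ℝ) / Real.log N
        = 22 * (N : ℝ) / Real.log N := by simp
      _ ≤ 22 * (2 * R) / ((m' : ℝ) / 2 * Real.log β) :=
          div_le_div₀ (by positivity) (by linarith) (by positivity) hlogN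
      _ = (88 / Real.log β) / m' * R := by field_simp; norm_num
      _ ≤ _ := by
          gcongr
          exact le_max_left _ _
  · rw [Nat.card_Ico, Nat.cast_sub o1]
    have : (1 - 1 / (m' : ℝ)) * R = R - 1 / (m' : ℝ) * R := by ring
    rw [this]
    linarith
  · rw [Nat.card_Icc, Nat.cast_sub (by omega)]
    have : (1 + 1 / (m' : ℝ)) * R = R + 1 / (m' : ℝ) * R := by ring
    rw [this]
    push_cast
    linarith

end Pool.Agent.Q288.VL
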