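import Mathlib

set_option autoImplicit false

/-!
# Counting in trees of nearly nested cells
-/

namespace Pool.Agent.Q288.VL

open Finset MeasureTheory

section
variable {E : ℕ → ℝ} {P : ℕ → ℕ → Prop} {k₀ : ℕ} {T : Finset ℕ}

/-- inner tree: the cells contained in the cells of the level above -/
noncomputable def TI (E : ℕ → ℝ) (P : ℕ → ℕ → Prop) (k₀ : ℕ) (T : Finset ℕ) : ℕ → Finset ℕ
  | 0 => T
  | d + 1 => by
    classical
    exact (TI E P k₀ T d).biUnion fun j =>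
      (Ico ⌈(j : ℝ) * (E (k₀ + d + 1) / E (k₀ + d))⌉₊
        ⌊((j : ℝ) + 1) * (E (k₀ + d + 1) / E (k₀ + d))⌋₊).filter (P (k₀ + d + 1))

/-- outer tree: the cells meeting the cells of the level above -/
noncomputable def TO (E : ℕ → ℝ) (P : ℕ → ℕ → Prop) (k₀ : ℕ) (T : Finset ℕ) : ℕ → Finset ℕ
  | 0 => T
  | d + 1 => by
    classical
    exact (TO E P k₀ T d).biUnion fun j =>
      (Icc ⌊(j : ℝ) * (E (k₀ + d + 1) / E (k₀ + d))⌋₊
        ⌊((j : ℝ) + 1) * (E (k₀ + d + 1) / E (k₀ + d))⌋₊).filter (P (k₀ + d + 1))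

theorem floor_parent {e e' : ℝ} (he : 0 < e) (he' : 0 < e') {x : ℝ} {j : ℕ}
    (h1 : ⌈(j : ℝ) * (e' / e)⌉₊ ≤ ⌊x * e'⌋₊) (h2 : ⌊x * e'⌋₊ < ⌊((j : ℝ) + 1) * (e' / e)⌋₊)
    (hx : 0 ≤ x) : ⌊x * e⌋₊ = j := by
  have hR : 0 < e' / e := div_pos he' he
  have h3 : (j : ℝ) * (e' / e) ≤ x * e' := by
    calc (j : ℝ) * (e' / e) ≤ (⌈(j : ℝ) * (e' / e)⌉₊ : ℝ) := Nat.le_ceil _
      _ ≤ (⌊x * e'⌋₊ : ℝ) := by exact_mod_cast h1
      _ ≤ x * e' := Nat.floor_le (by positivity)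
  have h4 : x * e' < ((j : ℝ) + 1) * (e' / e) := by
    calc x * e' < (⌊x * e'⌋₊ : ℝ) + 1 := Nat.lt_floor_add_one _
      _ ≤ (⌊((j : ℝ) + 1) * (e' / e)⌋₊ : ℝ) := by exact_mod_cast h2
      _ ≤ _ := Nat.floor_le (by positivity)
  rw [Nat.floor_eq_iff (by positivity)]
  have e1 : x * e' = (x * e) * (e' / e) := by field_simp
  rw [e1] at h3 h4
  exact ⟨le_of_mul_le_mul_right h3 hR, lt_of_mul_lt_mul_right h4 hR.le⟩

theorem mem_TI (hE : ∀ k, 0 < E k) {x : ℝ} (hx : 0 ≤ x) :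
    ∀ d : ℕ, ⌊x * E (k₀ + d)⌋₊ ∈ TI E P k₀ T d →
      ⌊x * E k₀⌋₊ ∈ T ∧ ∀ k, k₀ < k → k ≤ k₀ + d → P k ⌊x * E k⌋₊ := by
  intro d
  induction d with
  | zero =>
    intro h
    exact ⟨h, fun k h1 h2 => by omega⟩
  | succ d ih =>
    intro h
    simp only [TI, mem_biUnion, mem_filter, mem_Ico] at h
    obtain ⟨j, hj, ⟨h1, h2⟩, h3⟩ := h
    have h4 := floor_parent (hE (k₀ + d)) (hE (k₀ + d + 1)) h1 h2 hx
    rw [← h4] at hj
    obtain ⟨h5, h6⟩ := ih hj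
    refine ⟨h5, fun k hk1 hk2 => ?_⟩
    rcases eq_or_lt_of_le hk2 with h | h
    · rw [h]; exact h3
    · exact h6 k hk1 (by omega)

theorem TI_anti (hE : ∀ k, 0 < E k) {x : ℝ} (hx : 0 ≤ x) (d : ℕ)
    (h : ⌊x * E (k₀ + (d + 1))⌋₊ ∈ TI E P k₀ T (d + 1)) : ⌊x * E (k₀ + d)⌋₊ ∈ TI E P k₀ T d := by
  simp only [TI, mem_biUnion, mem_filter, mem_Ico] at h
  obtain ⟨j, hj, ⟨h1, h2⟩, h3⟩ := h
  have h4 := floor_parent (hE (k₀ + d)) (hE (k₀ + d + 1)) h1 h2 hx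
  rwa [← h4] at hj

theorem mem_TO (hE : ∀ k, 0 < E k) {x : ℝ} (hx : 0 ≤ x) (hT : ⌊x * E k₀⌋₊ ∈ T) :
    ∀ d : ℕ, (∀ k, k₀ < k → k ≤ k₀ + d → P k ⌊x * E k⌋₊) → ⌊x * E (k₀ + d)⌋₊ ∈ TO E P k₀ T d := by
  intro d
  induction d with
  | zero => intro _; exact hT
  | succ d ih =>
    intro h
    simp only [TO, mem_biUnion, mem_filter, mem_Icc]
    have h0 := hE (k₀ + d)
    have h1 := hE (k₀ + d + 1)
    have e1 : x * E (k₀ + (d + 1)) = (x * E (k₀ + d)) * (E (k₀ + d + 1) / E (k₀ + d)) := by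
      rw [show k₀ + (d + 1) = k₀ + d + 1 by ring]
      field_simp
    have hR : 0 < E (k₀ + d + 1) / E (k₀ + d) := div_pos h1 h0
    refine ⟨_, ih fun k hk1 hk2 => h k hk1 (by omega), ⟨?_, ?_⟩, h _ (by omega) le_rfl⟩
    · rw [e1]
      refine Nat.floor_le_floor (mul_le_mul_of_nonneg_right ?_ hR.le)
      exact Nat.floor_le (by positivity)
    · rw [e1]
      refine Nat.floor_le_floor (mul_le_mul_of_nonneg_right ?_ hR.le)
      exact (Nat.lt_floor_add_one _).le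

theorem card_TI {u : ℕ → ℝ} (hu : ∀ k, 0 ≤ u k) (hE : ∀ k, 0 < E k)
    (hstep : ∀ k, k₀ ≤ k → ∀ j : ℕ, ⌊((j : ℝ) / E k) * E k₀⌋₊ ∈ T →
      ∀ S : Finset ℕ, (∀ i, i ∈ S ↔ (⌈(j : ℝ) * (E (k + 1) / E k)⌉₊ ≤ i ∧
        i < ⌊((j : ℝ) + 1) * (E (k + 1) / E k)⌋₊) ∧ P (k + 1) i) →
        u (k + 1) * (E (k + 1) / E k) ≤ S.card) :
    ∀ d : ℕ, (T.card : ℝ) / E k₀ * ∏ k ∈ Ioc k₀ (k₀ + d), u k ≤
        ((TI E P k₀ T d).card : ℝ) / E (k₀ + d) := by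
  classical
  intro d
  induction d with
  | zero => simp [TI]
  | succ d ih =>
    have h0 := hE (k₀ + d)
    have h1 := hE (k₀ + d + 1)
    have hmem : ∀ j ∈ TI E P k₀ T d, ⌊((j : ℝ) / E (k₀ + d)) * E k₀⌋₊ ∈ T := by
      intro j hj
      exact (mem_TI (P := P) (k₀ := k₀) (T := T) hE (x := (j : ℝ) / E (k₀ + d)) (by positivity) d
        (by rw [div_mul_cancel₀ _ h0.ne', Nat.floor_natCast]; exact hj)).1
    have hcard : ((TI E P k₀ T (d + 1)).card : ℝ) =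
        ∑ j ∈ TI E P k₀ T d, (((Ico ⌈(j : ℝ) * (E (k₀ + d + 1) / E (k₀ + d))⌉₊
          ⌊((j : ℝ) + 1) * (E (k₀ + d + 1) / E (k₀ + d))⌋₊).filter
          (P (k₀ + d + 1))).card : ℝ) := by
      have : (TI E P k₀ T (d + 1)) = (TI E P k₀ T d).biUnion fun j =>
        (Ico ⌈(j : ℝ) * (E (k₀ + d + 1) / E (k₀ + d))⌉₊
          ⌊((j : ℝ) + 1) * (E (k₀ + d + 1) / E (k₀ + d))⌋₊).filter (P (k₀ + d + 1)) := by
        simp only [TI]
      rw [this, card_biUnion]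
      · push_cast; rfl
      · intro i _ j _ hij
        rw [Function.onFun, disjoint_left]
        intro z hz1 hz2
        simp only [mem_filter, mem_Ico] at hz1 hz2
        apply hij
        have hz0 : (0 : ℝ) ≤ (z : ℝ) / E (k₀ + d + 1) := by positivity
        have ez : ⌊(z : ℝ) / E (k₀ + d + 1) * E (k₀ + d + 1)⌋₊ = z := by
          rw [div_mul_cancel₀ _ h1.ne', Nat.floor_natCast]
        have a1 := floor_parent (x := (z : ℝ) / E (k₀ + d + 1)) h0 h1 (j := i) (by rw [ez]; exact hz1.1.1)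
          (by rw [ez]; exact hz1.1.2) hz0
        have a2 := floor_parent (x := (z : ℝ) / E (k₀ + d + 1)) h0 h1 (j := j) (by rw [ez]; exact hz2.1.1)
          (by rw [ez]; exact hz2.1.2) hz0
        rw [← a1, a2]
    have hs : ∀ j ∈ TI E P k₀ T d, u (k₀ + d + 1) * (E (k₀ + d + 1) / E (k₀ + d)) ≤
        (((Ico ⌈(j : ℝ) * (E (k₀ + d + 1) / E (k₀ + d))⌉₊
          ⌊((j : ℝ) + 1) * (E (k₀ + d + 1) / E (k₀ + d))⌋₊).filter
          (P (k₀ + d + 1))).card : ℝ) := fun j hj =>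
      hstep (k₀ + d) (Nat.le_add_right _ _) j (hmem j hj) _ fun i => by
        simp only [mem_filter, mem_Ico]
    have hprod : ∏ k ∈ Ioc k₀ (k₀ + (d + 1)), u k =
        (∏ k ∈ Ioc k₀ (k₀ + d), u k) * u (k₀ + d + 1) := by
      rw [show k₀ + (d + 1) = (k₀ + d) + 1 by ring, prod_Ioc_succ_top (by omega)]
    rw [hprod, hcard]
    have h2 : ((TI E P k₀ T d).card : ℝ) * (u (k₀ + d + 1) * (E (k₀ + d + 1) / E (k₀ + d))) ≤
        ∑ j ∈ TI E P k₀ T d, (((Ico ⌈(j : ℝ) * (E (k₀ + d + 1) / E (k₀ + d))⌉₊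
          ⌊((j : ℝ) + 1) * (E (k₀ + d + 1) / E (k₀ + d))⌋₊).filter
          (P (k₀ + d + 1))).card : ℝ) := by
      rw [← nsmul_eq_mul, ← sum_const]
      exact sum_le_sum fun j hj => hs j hj
    rw [show k₀ + (d + 1) = k₀ + d + 1 by ring, le_div_iff₀ h1]
    refine le_trans ?_ h2
    have h3 := mul_le_mul_of_nonneg_right ih (mul_nonneg (hu (k₀ + d + 1)) h1.le)
    calc _ = (T.card : ℝ) / E k₀ * (∏ k ∈ Ioc k₀ (k₀ + d), u k) *
          (u (k₀ + d + 1) * E (k₀ + d + 1)) := by ring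
      _ ≤ _ := h3
      _ = _ := by field_simp

theorem card_TO {v : ℕ → ℝ} (hv : ∀ k, 0 ≤ v k) (hE : ∀ k, 0 < E k)
    (hT : ∀ d, ∀ j ∈ TO E P k₀ T d, ∀ S : Finset ℕ, (∀ i, i ∈ S ↔
      (⌊(j : ℝ) * (E (k₀ + d + 1) / E (k₀ + d))⌋₊ ≤ i ∧
        i ≤ ⌊((j : ℝ) + 1) * (E (k₀ + d + 1) / E (k₀ + d))⌋₊) ∧ P (k₀ + d + 1) i) →
        (S.card : ℝ) ≤ v (k₀ + d + 1) * (E (k₀ + d + 1) / E (k₀ + d))) :
    ∀ d : ℕ, ((TO E P k₀ T d).card : ℝ) / E (k₀ + d) ≤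
      (T.card : ℝ) / E k₀ * ∏ k ∈ Ioc k₀ (k₀ + d), v k := by
  classical
  intro d
  induction d with
  | zero => simp [TO]
  | succ d ih =>
    have h0 := hE (k₀ + d)
    have h1 := hE (k₀ + d + 1)
    have hcard : ((TO E P k₀ T (d + 1)).card : ℝ) ≤
        ∑ j ∈ TO E P k₀ T d, (((Icc ⌊(j : ℝ) * (E (k₀ + d + 1) / E (k₀ + d))⌋₊
          ⌊((j : ℝ) + 1) * (E (k₀ + d + 1) / E (k₀ + d))⌋₊).filter
          (P (k₀ + d + 1))).card : ℝ) := by
      have : (TO E P k₀ T (d + 1)) = (TO E P k₀ T d).biUnion fun j =>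
        (Icc ⌊(j : ℝ) * (E (k₀ + d + 1) / E (k₀ + d))⌋₊
          ⌊((j : ℝ) + 1) * (E (k₀ + d + 1) / E (k₀ + d))⌋₊).filter (P (k₀ + d + 1)) := by
        simp only [TO]
      rw [this]
      exact_mod_cast card_biUnion_le
    have hs : ∀ j ∈ TO E P k₀ T d, (((Icc ⌊(j : ℝ) * (E (k₀ + d + 1) / E (k₀ + d))⌋₊
          ⌊((j : ℝ) + 1) * (E (k₀ + d + 1) / E (k₀ + d))⌋₊).filter
          (P (k₀ + d + 1))).card : ℝ) ≤ v (k₀ + d + 1) * (E (k₀ + d + 1) / E (k₀ + d)) :=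
      fun j hj => hT d j hj _ fun i => by simp only [mem_filter, mem_Icc]
    have hprod : ∏ k ∈ Ioc k₀ (k₀ + (d + 1)), v k =
        (∏ k ∈ Ioc k₀ (k₀ + d), v k) * v (k₀ + d + 1) := by
      rw [show k₀ + (d + 1) = (k₀ + d) + 1 by ring, prod_Ioc_succ_top (by omega)]
    rw [hprod]
    have h2 : ∑ j ∈ TO E P k₀ T d, (((Icc ⌊(j : ℝ) * (E (k₀ + d + 1) / E (k₀ + d))⌋₊
          ⌊((j : ℝ) + 1) * (E (k₀ + d + 1) / E (k₀ + d))⌋₊).filter
          (P (k₀ + d + 1))).card : ℝ) ≤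
        ((TO E P k₀ T d).card : ℝ) * (v (k₀ + d + 1) * (E (k₀ + d + 1) / E (k₀ + d))) := by
      rw [← nsmul_eq_mul, ← sum_const]
      exact sum_le_sum fun j hj => hs j hj
    rw [show k₀ + (d + 1) = k₀ + d + 1 by ring, div_le_iff₀ h1]
    refine (hcard.trans h2).trans ?_
    have h3 := mul_le_mul_of_nonneg_right ih (mul_nonneg (hv (k₀ + d + 1)) h1.le)
    calc _ = ((TO E P k₀ T d).card : ℝ) / E (k₀ + d) *
          (v (k₀ + d + 1) * E (k₀ + d + 1)) := by field_simp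
      _ ≤ _ := h3
      _ = _ := by ring

end

/-- the measure of a union of cells -/
theorem measure_cells_real (e : ℝ) (he' : 0 < e) (T : Finset ℕ) :
    volume.real {x : ℝ | 0 ≤ x ∧ ⌊x * e⌋₊ ∈ T} = T.card / e := by
  have h1 : {x : ℝ | 0 ≤ x ∧ ⌊x * e⌋₊ ∈ T} = ⋃ j ∈ T, Set.Ico ((j : ℝ) / e) ((j + 1) / e) := by
    ext x
    simp only [Set.mem_ofPred_eq, Set.mem_iUnion, Set.mem_Ico, exists_prop]
    constructor
    · rintro ⟨hx, h⟩
      refine ⟨_, h, ?_, ?_⟩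
      · rw [div_le_iff₀ he']
        exact Nat.floor_le (by positivity)
      · rw [lt_div_iff₀ he']
        exact Nat.lt_floor_add_one _
    · rintro ⟨j, hj, h2, h3⟩
      rw [div_le_iff₀ he'] at h2
      rw [lt_div_iff₀ he'] at h3
      have hx : 0 ≤ x := by
        by_contra hneg
        push Not at hneg
        have := mul_neg_of_neg_of_pos hneg he'
        have : (0 : ℝ) ≤ j := Nat.cast_nonneg _
        linarith
      refine ⟨hx, ?_⟩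
      have : ⌊x * e⌋₊ = j := (Nat.floor_eq_iff (by positivity)).2 ⟨h2, h3⟩
      rw [this]; exact hj
  rw [h1, Measure.real, measure_biUnion_finset]
  · simp only [Real.volume_Ico]
    have : ∀ j ∈ T, ENNReal.ofReal (((j : ℝ) + 1) / e - j / e) = ENNReal.ofReal (1 / e) := by
      intro j _
      congr 1
      ring
    rw [sum_congr rfl this, sum_const, nsmul_eq_mul, ENNReal.toReal_mul, ENNReal.toReal_natCast,
      ENNReal.toReal_ofReal (by positivity)]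
    ring
  · intro i _ j _ hij
    rw [Function.onFun, Set.disjoint_left]
    rintro x ⟨h2, h3⟩ ⟨h4, h5⟩
    apply hij
    rw [div_le_iff₀ he'] at h2 h4
    rw [lt_div_iff₀ he'] at h3 h5
    have a1 : (i : ℝ) < j + 1 := by linarith
    have a2 : (j : ℝ) < i + 1 := by linarith
    have a3 : i < j + 1 := by exact_mod_cast a1
    have a4 : j < i + 1 := by exact_mod_cast a2
    omega
  · intro j _
    exact measurableSet_Ico

end Pool.Agent.Q288.VL
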