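import Pool.Agent.Q288.VL.Tree
import Pool.Agent.Q288.VC.Gen
import Pool.Agent.H692R2.USS.T1

set_option autoImplicit false

/-!
# The number of primes in the cells
-/

namespace Pool.Agent.Q288.VL

open Finset MeasureTheory Filter

/-- the numbers `2 ^ k * n`, `n = 2 ^ (2 ^ k)` -/
def M (k : ℕ) : ℕ := 2 ^ (k + 2 ^ k)

/-- the numbers `n ^ n`, `n = 2 ^ (2 ^ k)` -/
def E (k : ℕ) : ℕ := 2 ^ M k

/-- the quotients -/
def R (k : ℕ) : ℕ := 2 ^ (M (k + 1) - M k)

theorem M_pos (k : ℕ) : 0 < M k := by unfold M; positivity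

theorem two_M (k : ℕ) : 2 * M k ≤ M (k + 1) := by
  unfold M
  rw [← pow_succ']
  apply Nat.pow_le_pow_right (by norm_num)
  rw [pow_succ]
  have : 0 < 2 ^ k := by positivity
  omega

theorem E_succ (k : ℕ) : E (k + 1) = E k * R k := by
  unfold E R
  rw [← pow_add]
  congr 1
  have := two_M k
  omega

theorem E_pos (k : ℕ) : 0 < E k := by unfold E; positivity

theorem R_pos (k : ℕ) : 0 < R k := by unfold R; positivity

theorem E_cast (k : ℕ) : (E k : ℝ) = Pool.Agent.Q288.VC.NN k := by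
  unfold E M Pool.Agent.Q288.VC.NN
  push_cast
  rfl

theorem logE (k : ℕ) : Real.log (E k) = M k * Real.log 2 := by
  unfold E
  push_cast
  rw [Real.log_pow]

theorem logR (k : ℕ) : Real.log (R k) = ((M (k + 1) : ℝ) - M k) * Real.log 2 := by
  unfold R
  push_cast
  rw [Real.log_pow, Nat.cast_sub (by have := two_M k; omega)]

/-- the number of primes in the cells -/
theorem prime_bounds : ∃ a A : ℝ, 0 < a ∧ a ≤ 1 ∧ 1 ≤ A ∧ ∀ (B : ℕ) (s t : ℝ), 0 < s → s < t →
    ∃ K : ℕ, ∀ k, K ≤ k → ∀ j : ℕ, s * E k ≤ j → (j : ℝ) ≤ t * E k → ∀ c ≤ B,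
      ∀ S : Finset ℕ, (∀ i, i ∈ S ↔ (j * R k ≤ i ∧ i < (j + 1) * R k) ∧ (i + c).Prime) →
        a / M (k + 1) * R k ≤ S.card ∧ (S.card : ℝ) ≤ A / M (k + 1) * R k := by
  obtain ⟨δ, η, hδ, hδ1, hη, X₀, hX₀, hH⟩ := Pool.Agent.H295R3.D.hoheisel
  refine ⟨min (η / 2) 1, 88, by positivity, min_le_right _ _, by norm_num, fun B s t hs hst => ?_⟩
  have h1 : ∀ᶠ k : ℕ in atTop, Pool.Agent.Q288.VC.NN k ^ 2 ≤ Pool.Agent.Q288.VC.NN (k + 1) ^ δ :=
    Pool.Agent.Q288.VC.NN_growth hδ
  have h2 : ∀ᶠ k : ℕ in atTop, (t + B) ≤ Pool.Agent.Q288.VC.NN k :=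
    Pool.Agent.Q288.VC.NN_tendsto.eventually_ge_atTop _
  have h3 : ∀ᶠ k : ℕ in atTop, ((X₀ : ℝ) + 2) ≤ s * Pool.Agent.Q288.VC.NN k :=
    (Pool.Agent.Q288.VC.NN_tendsto.const_mul_atTop hs).eventually_ge_atTop _
  obtain ⟨K, hK⟩ := eventually_atTop.1 ((h1.and h2).and h3)
  refine ⟨K, fun k hk j hj1 hj2 c hc S hS => ?_⟩
  obtain ⟨⟨g1, g2⟩, g3⟩ := hK k hk
  rw [← E_cast, ← E_cast] at g1
  rw [← E_cast] at g2 g3
  have hE1 : (1 : ℝ) ≤ E k := by exact_mod_cast E_pos k
  have hE0 : (0 : ℝ) < E k := by linarith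
  have hE1' : (1 : ℝ) ≤ E (k + 1) := by exact_mod_cast E_pos (k + 1)
  have hE0' : (0 : ℝ) < E (k + 1) := by linarith
  have hR1 : 1 ≤ R k := R_pos k
  have hRr : (1 : ℝ) ≤ R k := by exact_mod_cast hR1
  have hER : (E (k + 1) : ℝ) = E k * R k := by rw [E_succ]; push_cast; rfl
  have hM0 : (0 : ℝ) < M (k + 1) := by exact_mod_cast M_pos (k + 1)
  have hlog2 : Real.log 2 ≤ 1 := by have := Real.log_two_lt_d9; linarith
  have hlog2' : (1 / 2 : ℝ) ≤ Real.log 2 := by have := Real.log_two_gt_d9; linarith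
  have hjX : X₀ + 2 ≤ j := by
    have : ((X₀ : ℝ) + 2) ≤ j := g3.trans hj1
    exact_mod_cast this
  have hjR : j ≤ j * R k := Nat.le_mul_of_pos_right _ hR1
  have h2R : 2 * R k ≤ j * R k := Nat.mul_le_mul_right _ (by omega)
  have hsucc : (j + 1) * R k = j * R k + R k := by ring
  constructor
  · -- the lower bound
    set X : ℕ := j * R k + c - 1 with hX
    have hXX : X₀ ≤ X := by omega
    have hYX : R k ≤ X := by omega
    have hXle : (X : ℝ) ≤ E k * E (k + 1) := by
      have e1 : X ≤ j * R k + B := by omega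
      have e2 : (X : ℝ) ≤ j * R k + B := by exact_mod_cast e1
      have e3 : (j : ℝ) * R k ≤ t * E k * R k := mul_le_mul_of_nonneg_right hj2 (by linarith)
      have e4 : (B : ℝ) ≤ B * E (k + 1) := le_mul_of_one_le_right (Nat.cast_nonneg _) hE1'
      calc (X : ℝ) ≤ t * E k * R k + B * E (k + 1) := by linarith
        _ = (t + B) * E (k + 1) := by rw [hER]; ring
        _ ≤ _ := mul_le_mul_of_nonneg_right g2 hE0'.le
    have hXpos : (1 : ℝ) < X := by
      have : 2 ≤ X := hX₀.trans hXX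
      exact_mod_cast this
    have hpow : (X : ℝ) ^ (1 - δ) ≤ R k := by
      calc (X : ℝ) ^ (1 - δ) ≤ (E k * E (k + 1)) ^ (1 - δ) :=
            Real.rpow_le_rpow (by linarith) hXle (by linarith)
        _ = (E k : ℝ) ^ (1 - δ) * (E (k + 1) : ℝ) ^ (1 - δ) := Real.mul_rpow hE0.le hE0'.le
        _ ≤ E k * ((E (k + 1) : ℝ) / (E k : ℝ) ^ 2) := by
            refine mul_le_mul ?_ ?_ (by positivity) hE0.le
            · calc (E k : ℝ) ^ (1 - δ) ≤ (E k : ℝ) ^ (1 : ℝ) :=
                    Real.rpow_le_rpow_of_exponent_le hE1 (by linarith)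
                _ = E k := Real.rpow_one _
            · rw [Real.rpow_sub hE0', Real.rpow_one]
              exact div_le_div_of_nonneg_left hE0'.le (by positivity) g1
        _ = R k := by rw [hER]; field_simp
    have hcount := hH X (R k) hXX hpow hYX
    have hinj : ((Ioc X (X + R k)).filter Nat.Prime).card ≤ S.card := by
      refine card_le_card_of_injOn (fun p => p - c) ?_ ?_
      · intro p hp
        have hp' := mem_filter.1 (mem_coe.1 hp)
        rw [mem_Ioc] at hp'
        obtain ⟨⟨q1, q2⟩, q3⟩ := hp'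
        refine mem_coe.2 ((hS _).2 ⟨⟨by show j * R k ≤ p - c; omega,
          by show p - c < (j + 1) * R k; omega⟩, ?_⟩)
        show ((p - c) + c).Prime
        rwa [Nat.sub_add_cancel (by omega)]
      · intro p hp q hq hpq
        have hp' := mem_filter.1 (mem_coe.1 hp)
        have hq' := mem_filter.1 (mem_coe.1 hq)
        rw [mem_Ioc] at hp' hq'
        have : p - c = q - c := hpq
        omega
    have hinj' : (((Ioc X (X + R k)).filter Nat.Prime).card : ℝ) ≤ S.card := by exact_mod_cast hinj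
    refine le_trans ?_ (hcount.trans hinj')
    have hlogX : Real.log X ≤ 2 * M (k + 1) := by
      have hM : (M k : ℝ) ≤ M (k + 1) := by
        have := two_M k
        have h : M k ≤ M (k + 1) := by omega
        exact_mod_cast h
      calc Real.log X ≤ Real.log (E k * E (k + 1)) := Real.log_le_log (by linarith) hXle
        _ = (M k + M (k + 1)) * Real.log 2 := by
            rw [Real.log_mul hE0.ne' hE0'.ne', logE, logE]; ring
        _ ≤ (M k + M (k + 1)) * 1 := mul_le_mul_of_nonneg_left hlog2 (by positivity)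
        _ ≤ _ := by linarith
    calc min (η / 2) 1 / M (k + 1) * R k ≤ (η / 2) / M (k + 1) * R k := by
          gcongr
          exact min_le_left _ _
      _ = η * R k / (2 * M (k + 1)) := by field_simp
      _ ≤ η * R k / Real.log X := by
          refine div_le_div_of_nonneg_left (by positivity) (Real.log_pos hXpos) hlogX
  · -- the upper bound
    have hR2 : 2 ≤ R k := by
      unfold R
      have h1 := two_M k
      have h2 := M_pos k
      calc 2 = 2 ^ 1 := by norm_num
        _ ≤ _ := Nat.pow_le_pow_right (by norm_num) (by omega)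
    have hbt := Pool.Agent.H692R2.USS.t1_brun_titchmarsh (j * R k + c) 1 (R k) hR2 le_rfl
    have hinj : S.card ≤ ((range (R k)).filter (fun l => (j * R k + c + l * 1).Prime)).card := by
      refine card_le_card_of_injOn (fun i => i - j * R k) ?_ ?_
      · intro i hi
        obtain ⟨⟨q1, q2⟩, q3⟩ := (hS i).1 (mem_coe.1 hi)
        refine mem_coe.2 (mem_filter.2 ⟨mem_range.2 (by show i - j * R k < R k; omega), ?_⟩)
        show (j * R k + c + (i - j * R k) * 1).Prime
        rwa [show j * R k + c + (i - j * R k) * 1 = i + c by omega]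
      · intro p hp q hq hpq
        have hp' := (hS p).1 (mem_coe.1 hp)
        have hq' := (hS q).1 (mem_coe.1 hq)
        have : p - j * R k = q - j * R k := hpq
        omega
    have hinj' : (S.card : ℝ) ≤
        (((range (R k)).filter (fun l => (j * R k + c + l * 1).Prime)).card : ℝ) := by
      exact_mod_cast hinj
    refine (hinj'.trans hbt).trans ?_
    rw [Nat.totient_one]
    have hM : 2 * (M k : ℝ) ≤ M (k + 1) := by exact_mod_cast two_M k
    have hlogR : (M (k + 1) : ℝ) / 4 ≤ Real.log (R k) := by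
      rw [logR]
      have : (M (k + 1) : ℝ) / 2 ≤ M (k + 1) - M k := by linarith
      calc (M (k + 1) : ℝ) / 4 = (M (k + 1) : ℝ) / 2 * (1 / 2) := by ring
        _ ≤ _ := mul_le_mul this hlog2' (by norm_num) (by linarith)
    calc 22 * (((1 : ℕ) : ℝ) / ((1 : ℕ) : ℝ)) * (R k : ℝ) / Real.log (R k)
        = 22 * (R k : ℝ) / Real.log (R k) := by simp
      _ ≤ 22 * (R k : ℝ) / ((M (k + 1) : ℝ) / 4) :=
          div_le_div_of_nonneg_left (by positivity) (by positivity) hlogR
      _ = _ := by field_simp; norm_num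

end Pool.Agent.Q288.VL
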