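import Mathlib

set_option autoImplicit false

/-!
# Counting in a tree of nested cells
-/

namespace Pool.Agent.Q288.VL

open Finset MeasureTheory

/-- the cells of level `k₀ + d` below the cells `T` of level `k₀` which satisfy the conditions `P` -/
noncomputable def TT (R : ℕ → ℕ) (P : ℕ → ℕ → Prop) (k₀ : ℕ) (T : Finset ℕ) : ℕ → Finset ℕ
  | 0 => T
  | d + 1 => by
    classical
    exact (TT R P k₀ T d).biUnion fun j =>
      (Ico (j * R (k₀ + d)) ((j + 1) * R (k₀ + d))).filter (P (k₀ + d + 1))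

variable {E R : ℕ → ℕ} {P : ℕ → ℕ → Prop} {k₀ : ℕ} {T : Finset ℕ}

theorem mem_TT (hE : ∀ k, E (k + 1) = E k * R k) (hR : ∀ k, 0 < R k) {x : ℝ} (hx : 0 ≤ x) :
    ∀ d : ℕ, ⌊x * E (k₀ + d)⌋₊ ∈ TT R P k₀ T d ↔
      ⌊x * E k₀⌋₊ ∈ T ∧ ∀ k, k₀ < k → k ≤ k₀ + d → P k ⌊x * E k⌋₊ := by
  intro d
  induction d with
  | zero =>
    simp only [TT, add_zero]
    exact ⟨fun h => ⟨h, fun k h1 h2 => by omega⟩, fun h => h.1⟩
  | succ d ih =>
    have hRp := hR (k₀ + d)
    have hdiv : ⌊x * E (k₀ + (d + 1))⌋₊ / R (k₀ + d) = ⌊x * E (k₀ + d)⌋₊ := by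
      rw [← Nat.floor_div_natCast]
      congr 1
      rw [show k₀ + (d + 1) = (k₀ + d) + 1 by ring, hE]
      push_cast
      have : (R (k₀ + d) : ℝ) ≠ 0 := by positivity
      field_simp
    have hch : ∀ j : ℕ, (j * R (k₀ + d) ≤ ⌊x * E (k₀ + (d + 1))⌋₊ ∧
        ⌊x * E (k₀ + (d + 1))⌋₊ < (j + 1) * R (k₀ + d)) ↔ j = ⌊x * E (k₀ + d)⌋₊ := by
      intro j
      rw [← hdiv]
      constructor
      · rintro ⟨h1, h2⟩
        exact ((Nat.div_eq_iff hRp).2 ⟨h1, by
          have : (j + 1) * R (k₀ + d) = j * R (k₀ + d) + R (k₀ + d) := by ring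
          omega⟩).symm
      · intro h
        have h3 := (Nat.div_eq_iff hRp).1 h.symm
        have : (j + 1) * R (k₀ + d) = j * R (k₀ + d) + R (k₀ + d) := by ring
        omega
    simp only [TT, mem_biUnion, mem_filter, mem_Ico]
    constructor
    · rintro ⟨j, hj, hj2, hj3⟩
      rw [hch] at hj2
      subst hj2
      obtain ⟨h1, h2⟩ := ih.1 hj
      refine ⟨h1, fun k hk1 hk2 => ?_⟩
      rcases eq_or_lt_of_le hk2 with h | h
      · rw [h]; exact hj3
      · exact h2 k hk1 (by omega)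
    · rintro ⟨h1, h2⟩
      exact ⟨_, ih.2 ⟨h1, fun k hk1 hk2 => h2 k hk1 (by omega)⟩, (hch _).2 rfl,
        h2 _ (by omega) le_rfl⟩

/-- the ratio of a cell -/
theorem card_TT {u v : ℕ → ℝ} (hu : ∀ k, 0 ≤ u k) (hv : ∀ k, 0 ≤ v k)
    (hE : ∀ k, E (k + 1) = E k * R k) (hR : ∀ k, 0 < R k) (hE0 : ∀ k, 0 < E k)
    (hstep : ∀ k, k₀ ≤ k → ∀ j : ℕ, ⌊((j : ℝ) / E k) * E k₀⌋₊ ∈ T →
      ∀ S : Finset ℕ, (∀ i, i ∈ S ↔ (j * R k ≤ i ∧ i < (j + 1) * R k) ∧ P (k + 1) i) →
        u (k + 1) * R k ≤ S.card ∧ (S.card : ℝ) ≤ v (k + 1) * R k) :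
    ∀ d : ℕ, (T.card : ℝ) / E k₀ * ∏ k ∈ Ioc k₀ (k₀ + d), u k ≤
        ((TT R P k₀ T d).card : ℝ) / E (k₀ + d) ∧
      ((TT R P k₀ T d).card : ℝ) / E (k₀ + d) ≤
        (T.card : ℝ) / E k₀ * ∏ k ∈ Ioc k₀ (k₀ + d), v k := by
  classical
  intro d
  induction d with
  | zero => simp [TT]
  | succ d ih =>
    obtain ⟨ih1, ih2⟩ := ih
    have hRp : (0 : ℝ) < R (k₀ + d) := by exact_mod_cast hR _
    have hEp : (0 : ℝ) < E (k₀ + d) := by exact_mod_cast hE0 _
    have hmem : ∀ j ∈ TT R P k₀ T d, ⌊((j : ℝ) / E (k₀ + d)) * E k₀⌋₊ ∈ T := by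
      intro j hj
      have h1 := (mem_TT (P := P) (k₀ := k₀) (T := T) hE hR
        (x := (j : ℝ) / E (k₀ + d)) (by positivity) d).1 (by
          rw [div_mul_cancel₀ _ hEp.ne', Nat.floor_natCast]
          exact hj)
      exact h1.1
    have hcard : ((TT R P k₀ T (d + 1)).card : ℝ) =
        ∑ j ∈ TT R P k₀ T d, (((Ico (j * R (k₀ + d)) ((j + 1) * R (k₀ + d))).filter
          (P (k₀ + d + 1))).card : ℝ) := by
      have : (TT R P k₀ T (d + 1)) = (TT R P k₀ T d).biUnion fun j =>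
        (Ico (j * R (k₀ + d)) ((j + 1) * R (k₀ + d))).filter (P (k₀ + d + 1)) := by
        simp only [TT]
      rw [this, card_biUnion]
      · push_cast; rfl
      · intro i _ j _ hij
        rw [Function.onFun, disjoint_left]
        intro z hz1 hz2
        simp only [mem_filter, mem_Ico] at hz1 hz2
        apply hij
        have e1 := (Nat.div_eq_iff (hR (k₀ + d)) (x := z) (y := i)).2 ⟨hz1.1.1, by
          have := hz1.1.2
          have h3 : (i + 1) * R (k₀ + d) = i * R (k₀ + d) + R (k₀ + d) := by ring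
          have := hR (k₀ + d)
          omega⟩
        have e2 := (Nat.div_eq_iff (hR (k₀ + d)) (x := z) (y := j)).2 ⟨hz2.1.1, by
          have := hz2.1.2
          have h3 : (j + 1) * R (k₀ + d) = j * R (k₀ + d) + R (k₀ + d) := by ring
          have := hR (k₀ + d)
          omega⟩
        rw [← e1, e2]
    have hs : ∀ j ∈ TT R P k₀ T d, u (k₀ + d + 1) * R (k₀ + d) ≤
        (((Ico (j * R (k₀ + d)) ((j + 1) * R (k₀ + d))).filter (P (k₀ + d + 1))).card : ℝ) ∧
        (((Ico (j * R (k₀ + d)) ((j + 1) * R (k₀ + d))).filter (P (k₀ + d + 1))).card : ℝ) ≤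
          v (k₀ + d + 1) * R (k₀ + d) := by
      intro j hj
      exact hstep (k₀ + d) (Nat.le_add_right _ _) j (hmem j hj) _ fun i => by
        simp only [mem_filter, mem_Ico]
    have hE' : ((E (k₀ + (d + 1)) : ℕ) : ℝ) = E (k₀ + d) * R (k₀ + d) := by
      rw [show k₀ + (d + 1) = (k₀ + d) + 1 by ring, hE]; push_cast; rfl
    have hprod : ∀ w : ℕ → ℝ, ∏ k ∈ Ioc k₀ (k₀ + (d + 1)), w k =
        (∏ k ∈ Ioc k₀ (k₀ + d), w k) * w (k₀ + d + 1) := by
      intro w
      rw [show k₀ + (d + 1) = (k₀ + d) + 1 by ring, prod_Ioc_succ_top (by omega)]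
    rw [hprod, hprod, hE', hcard]
    constructor
    · have h1 : ((TT R P k₀ T d).card : ℝ) * (u (k₀ + d + 1) * R (k₀ + d)) ≤
          ∑ j ∈ TT R P k₀ T d, (((Ico (j * R (k₀ + d)) ((j + 1) * R (k₀ + d))).filter
            (P (k₀ + d + 1))).card : ℝ) := by
        rw [← nsmul_eq_mul, ← sum_const]
        exact sum_le_sum fun j hj => (hs j hj).1
      rw [le_div_iff₀ (by positivity)]
      refine le_trans ?_ h1
      have h2 := mul_le_mul_of_nonneg_right ih1 (mul_nonneg (hu (k₀ + d + 1)) (mul_pos hEp hRp).le)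
      calc _ = (T.card : ℝ) / E k₀ * (∏ k ∈ Ioc k₀ (k₀ + d), u k) *
            (u (k₀ + d + 1) * (E (k₀ + d) * R (k₀ + d))) := by ring
        _ ≤ _ := h2
        _ = _ := by field_simp
    · have h1 : ∑ j ∈ TT R P k₀ T d, (((Ico (j * R (k₀ + d)) ((j + 1) * R (k₀ + d))).filter
            (P (k₀ + d + 1))).card : ℝ) ≤
          ((TT R P k₀ T d).card : ℝ) * (v (k₀ + d + 1) * R (k₀ + d)) := by
        rw [← nsmul_eq_mul, ← sum_const]
        exact sum_le_sum fun j hj => (hs j hj).2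
      rw [div_le_iff₀ (by positivity)]
      refine h1.trans ?_
      have h2 := mul_le_mul_of_nonneg_right ih2 (mul_nonneg (hv (k₀ + d + 1)) (mul_pos hEp hRp).le)
      calc _ = ((TT R P k₀ T d).card : ℝ) / E (k₀ + d) *
            (v (k₀ + d + 1) * (E (k₀ + d) * R (k₀ + d))) := by field_simp
        _ ≤ _ := h2
        _ = _ := by ring

/-- the measure of a union of cells -/
theorem measure_cells (e : ℕ) (he : 0 < e) (T : Finset ℕ) :
    volume.real {x : ℝ | 0 ≤ x ∧ ⌊x * e⌋₊ ∈ T} = T.card / e := by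
  have he' : (0 : ℝ) < e := by exact_mod_cast he
  have h1 : {x : ℝ | 0 ≤ x ∧ ⌊x * e⌋₊ ∈ T} = ⋃ j ∈ T, Set.Ico ((j : ℝ) / e) ((j + 1) / e) := by
    ext x
    simp only [Set.mem_ofPred_eq, Set.mem_iUnion, Set.mem_Ico, exists_prop]
    constructor
    · rintro ⟨hx, h⟩
      refine ⟨_, h, ?_, ?_⟩
      · rw [div_le_iff₀ he']
        exact Nat.floor_le (by positivity)
      · rw [lt_div_iff₀ he']
        exact Nat.lt_floor_add_one _
    · rintro ⟨j, hj, h2, h3⟩
      rw [div_le_iff₀ he'] at h2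
      rw [lt_div_iff₀ he'] at h3
      have hx : 0 ≤ x := by
        by_contra hneg
        push Not at hneg
        have := mul_neg_of_neg_of_pos hneg he'
        have : (0 : ℝ) ≤ j := Nat.cast_nonneg _
        linarith
      refine ⟨hx, ?_⟩
      have : ⌊x * e⌋₊ = j := (Nat.floor_eq_iff (by positivity)).2 ⟨h2, h3⟩
      rw [this]; exact hj
  rw [h1, Measure.real, measure_biUnion_finset]
  · simp only [Real.volume_Ico]
    have : ∀ j ∈ T, ENNReal.ofReal (((j : ℝ) + 1) / e - j / e) = ENNReal.ofReal (1 / e) := by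
      intro j _
      congr 1
      ring
    rw [sum_congr rfl this, sum_const, nsmul_eq_mul, ENNReal.toReal_mul, ENNReal.toReal_natCast,
      ENNReal.toReal_ofReal (by positivity)]
    ring
  · intro i _ j _ hij
    rw [Function.onFun, Set.disjoint_left]
    rintro x ⟨h2, h3⟩ ⟨h4, h5⟩
    apply hij
    rw [div_le_iff₀ he'] at h2 h4
    rw [lt_div_iff₀ he'] at h3 h5
    have a1 : (i : ℝ) < j + 1 := by linarith
    have a2 : (j : ℝ) < i + 1 := by linarith
    have a3 : i < j + 1 := by exact_mod_cast a1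
    have a4 : j < i + 1 := by exact_mod_cast a2
    omega
  · intro j _
    exact measurableSet_Ico

end Pool.Agent.Q288.VL
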